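import Pool.Agent.K9h33.NOD.Shift
import Pool.Agent.H497R2.Der

/-!
Generic polynomials of bounded multidegree have a member of the family with a double point.
-/

set_option autoImplicit false
set_option linter.unusedSectionVars false
set_option linter.unusedVariables false
set_option linter.unusedSimpArgs false

open MvPolynomial

namespace Pool.Agent.K9h33.NOD

section coefD

variable {k A : Type*} [Field k] [Field A] [Algebra k A] {α : Type*}

/-- a derivation applied to the coefficients -/
noncomputable def cD (D : Derivation k A A) (p : MvPolynomial α A) : MvPolynomial α A :=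
  ∑ d ∈ p.support, monomial d (D (coeff d p))

lemma coeff_cD (D : Derivation k A A) (p : MvPolynomial α A) (d : α →₀ ℕ) :
    coeff d (cD D p) = D (coeff d p) := by
  classical
  rw [cD, coeff_sum]
  simp only [coeff_monomial]
  rw [Finset.sum_ite_eq' p.support]
  split_ifs with h
  · rfl
  · rw [notMem_support_iff.1 h, map_zero]

/-- as a derivation -/
noncomputable def cDd (D : Derivation k A A) :
    Derivation k (MvPolynomial α A) (MvPolynomial α A) :=
  Derivation.mk'
    { toFun := cD D
      map_add' := fun p q => by
        ext d
        rw [coeff_cD, coeff_add, coeff_add, coeff_cD, coeff_cD, map_add]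
      map_smul' := fun a p => by
        ext d
        rw [coeff_cD, RingHom.id_apply]
        have h1 : ∀ q : MvPolynomial α A, coeff d (a • q) = a • coeff d q := fun q => by
          rw [coeff_smul]
        rw [h1, h1, coeff_cD, D.map_smul] }
    (fun p q => by
      classical
      ext d
      change coeff d (cD D (p * q)) = coeff d (p • cD D q + q • cD D p)
      rw [coeff_cD, coeff_add, smul_eq_mul, smul_eq_mul, coeff_mul, mul_comm q, coeff_mul, coeff_mul,
        map_sum, ← Finset.sum_add_distrib]
      refine Finset.sum_congr rfl fun x _ => ?_
      rw [Derivation.leibniz, coeff_cD, coeff_cD, smul_eq_mul, smul_eq_mul]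
      ring)

lemma cDd_apply (D : Derivation k A A) (p : MvPolynomial α A) : cDd D p = cD D p := rfl

lemma cD_C (D : Derivation k A A) (a : A) : cD D (C a : MvPolynomial α A) = C (D a) := by
  classical
  ext d
  rw [coeff_cD, coeff_C, coeff_C]
  split_ifs
  · rfl
  · rw [map_zero]

lemma cD_X (D : Derivation k A A) (v : α) : cD D (X v : MvPolynomial α A) = 0 := by
  classical
  ext d
  rw [coeff_cD, coeff_X, coeff_zero]
  split_ifs
  · rw [Derivation.map_one_eq_zero]
  · rw [map_zero]

end coefD

/-- the chain rule -/
lemma chain {k B : Type*} [Field k] [CommRing B] [Algebra k B] {α : Type*} [Fintype α]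
    (Δ : Derivation k B B) (x : α → B) (p : MvPolynomial α k) :
    Δ (aeval x p) = ∑ v, aeval x (pderiv v p) * Δ (x v) := by
  classical
  induction p using MvPolynomial.induction_on with
  | C a => simp [Derivation.map_algebraMap]
  | add p q hp hq =>
    rw [map_add, map_add, hp, hq, ← Finset.sum_add_distrib]
    refine Finset.sum_congr rfl fun v _ => ?_
    rw [map_add, map_add, add_mul]
  | mul_X p i hp =>
    rw [map_mul, aeval_X, Derivation.leibniz, hp, smul_eq_mul, smul_eq_mul]
    have h1 : ∀ v, aeval x (pderiv v (p * X i)) * Δ (x v) =
        x i * (aeval x (pderiv v p) * Δ (x v)) + (if v = i then aeval x p * Δ (x v) else 0) := by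
      intro v
      rw [Derivation.leibniz, smul_eq_mul, smul_eq_mul, map_add, map_mul, map_mul, aeval_X,
        pderiv_X, Pi.single_apply]
      by_cases h : v = i
      · subst h
        rw [if_pos rfl, if_pos rfl, map_one]
        ring
      · rw [if_neg (Ne.symm h), if_neg h, map_zero]
        ring
    rw [Finset.sum_congr rfl fun v _ => h1 v, Finset.sum_add_distrib, Finset.sum_ite_eq' Finset.univ,
      if_pos (Finset.mem_univ i), ← Finset.mul_sum, add_comm]

end Pool.Agent.K9h33.NOD
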