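import Pool.Agent.K9h33.NOD.Gen

/-!
Generic polynomials of bounded multidegree: the parameters are algebraic over the coefficients.
-/

set_option autoImplicit false
set_option linter.unusedSectionVars false
set_option linter.unusedVariables false
set_option linter.unusedSimpArgs false

open MvPolynomial

namespace Pool.Agent.K9h33.NOD

variable {β γ : Type} [Fintype β] [Fintype γ] [DecidableEq β] [DecidableEq γ]

/-- the exponents -/
abbrev Ex (c : β → ℕ) (e : ℕ → ℕ) : Type := {d : β ⊕ Option γ →₀ ℕ // InE c e d}

noncomputable instance (c : β → ℕ) (e : ℕ → ℕ) : Fintype (Ex (γ := γ) c e) :=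
  (finite_InE c e).fintype

variable {c : β → ℕ} {e : ℕ → ℕ}

lemma in0 : InE (γ := γ) c e 0 := ⟨fun j => by simp, by simp⟩

lemma inr_le {d : β ⊕ Option γ →₀ ℕ} (h1 : ∀ i, d (Sum.inl i) = 0)
    (h2 : ∑ o, d (Sum.inr o) ≤ 6) : InE (γ := γ) c e d :=
  ⟨fun j => by rw [Finset.sum_eq_zero fun i _ => h1 i]; exact Nat.zero_le _, h2⟩

lemma sum_single (o : Option γ) (k : ℕ) :
    ∑ o', (Finsupp.single (Sum.inr o) k : β ⊕ Option γ →₀ ℕ) (Sum.inr o') = k := by
  rw [Finset.sum_eq_single o]
  · simp
  · intro b _ hb
    rw [Finsupp.single_apply, if_neg]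
    exact fun h => hb (Sum.inr_injective h).symm
  · simp

lemma inu (o : Option γ) (k : ℕ) (hk : k ≤ 6) :
    InE (γ := γ) c e (Finsupp.single (Sum.inr o) k) :=
  inr_le (fun i => by simp) (by rw [sum_single]; exact hk)

lemma in2 (o o' : Option γ) :
    InE (γ := γ) c e (Finsupp.single (Sum.inr o) 1 + Finsupp.single (Sum.inr o') 1) :=
  inr_le (fun i => by simp) (by
    simp only [Finsupp.add_apply, Finset.sum_add_distrib, sum_single]
    norm_num)

lemma iny (i : β) (h : 1 ≤ e (c i)) : InE (γ := γ) c e (Finsupp.single (Sum.inl i) 1) := by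
  refine ⟨fun j => ?_, by simp⟩
  by_cases hj : c i = j
  · subst hj
    refine le_trans ?_ h
    rw [Finset.sum_eq_single i]
    · simp
    · intro b _ hb
      rw [Finsupp.single_apply, if_neg]
      exact fun h => hb (Sum.inl_injective h).symm
    · simp
  · refine le_trans (le_of_eq (Finset.sum_eq_zero fun b hb => ?_)) (Nat.zero_le _)
    rw [Finsupp.single_apply, if_neg]
    intro h1
    have h2 := Sum.inl_injective h1
    subst h2
    exact hj (Finset.mem_filter.1 hb).2

/-- the exponents of the coefficients which vanish at a double point in special coordinates -/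
def E0 (d : β ⊕ Option γ →₀ ℕ) : Prop :=
  d = 0 ∨ (∃ o, d = Finsupp.single (Sum.inr o) 1) ∨ d = Finsupp.single (Sum.inr none) 2

section

variable {Ω : Type} [Field Ω] [CharZero Ω] (x : Ex (γ := γ) c e → Ω)

open Classical in
/-- the generic polynomial with a double point -/
noncomputable def fz : MvPolynomial (β ⊕ Option γ) Ω :=
  ∑ d : Ex (γ := γ) c e, if E0 d.1 then 0 else monomial d.1 (x d)

lemma coeff_fz {d : β ⊕ Option γ →₀ ℕ} (hd : InE c e d) (h0 : ¬ E0 d) :
    coeff d (fz x) = x ⟨d, hd⟩ := by
  classical
  rw [fz, coeff_sum, Finset.sum_eq_single ⟨d, hd⟩]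
  · rw [if_neg h0, coeff_monomial, if_pos rfl]
  · intro b _ hb
    split_ifs
    · exact coeff_zero _
    · rw [coeff_monomial, if_neg]
      exact fun h => hb (Subtype.ext h)
  · simp

lemma coeff_fz0 {d : β ⊕ Option γ →₀ ℕ} (h0 : E0 d) : coeff d (fz x) = 0 := by
  classical
  rw [fz, coeff_sum]
  refine Finset.sum_eq_zero fun b _ => ?_
  split_ifs with h
  · exact coeff_zero _
  · rw [coeff_monomial, if_neg]
    rintro rfl
    exact h h0

lemma supp_fz : Supp c e (fz x) := by
  classical
  intro d hd
  rw [mem_support_iff, fz, coeff_sum] at hd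
  obtain ⟨b, -, hb⟩ := Finset.exists_ne_zero_of_sum_ne_zero hd
  split_ifs at hb with h
  · exact absurd (coeff_zero _) hb
  · rw [coeff_monomial] at hb
    by_cases h1 : b.1 = d
    · exact h1 ▸ b.2
    · exact absurd (if_neg h1) hb

/-- the parameters -/
noncomputable def eta : Ω := x ⟨0, in0⟩
/-- the parameters -/
noncomputable def bb (o : Option γ) : Ω := x ⟨Finsupp.single (Sum.inr o) 1, inu o 1 (by norm_num)⟩
/-- the parameters -/
noncomputable def tau : Ω := x ⟨Finsupp.single (Sum.inr none) 2, inu none 2 (by norm_num)⟩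

variable (i1 : β) (g1 : γ)

/-- the generic polynomial -/
noncomputable def fo : MvPolynomial (β ⊕ Option γ) Ω :=
  aeval (shi i1 g1 (eta x) (bb x) (tau x)) (fz x)

lemma supp_fo : Supp c e (fo x i1 g1) := supp_shi i1 g1 _ _ _ (supp_fz x)

/-- its coefficients -/
noncomputable def co (d : Ex (γ := γ) c e) : Ω := coeff d.1 (fo x i1 g1)

lemma shf_fo : aeval (shf i1 g1 (eta x) (bb x) (tau x)) (fo x i1 g1) = fz x :=
  shf_shi' i1 g1 _ _ _ _

/-- a polynomial as the sum of its terms -/
lemma sum_supp {R : Type*} [CommRing R] {f : MvPolynomial (β ⊕ Option γ) R} (hf : Supp c e f) :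
    ∑ d : Ex (γ := γ) c e, monomial d.1 (coeff d.1 f) = f := by
  classical
  ext d
  rw [coeff_sum]
  simp only [coeff_monomial]
  by_cases hd : InE c e d
  · rw [Finset.sum_eq_single ⟨d, hd⟩]
    · rw [if_pos rfl]
    · intro b _ hb
      rw [if_neg]
      exact fun h => hb (Subtype.ext h)
    · simp
  · have h1 : coeff d f = 0 := by
      by_contra h
      exact hd (hf d (mem_support_iff.2 h))
    rw [h1]
    refine Finset.sum_eq_zero fun b _ => ?_
    rw [if_neg]
    rintro rfl
    exact hd b.2

/-- the Hesse matrix of the double point, over the ring of polynomials -/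
noncomputable def MM (c : β → ℕ) (e : ℕ → ℕ) :
    Matrix (Option γ) (Option γ) (MvPolynomial (Ex (γ := γ) c e) ℚ) :=
  fun o o' => if o = none ∧ o' = none then 0 else
    C (if o = o' then 2 else 1) *
      X ⟨Finsupp.single (Sum.inr o) 1 + Finsupp.single (Sum.inr o') 1, in2 o o'⟩

open Classical in
/-- a point where it is a permutation matrix -/
noncomputable def pt (g1 : γ) (d : Ex (γ := γ) c e) : ℚ :=
  if d.1 = Finsupp.single (Sum.inr none) 1 + Finsupp.single (Sum.inr (some g1)) 1 then 1 else
    if ∃ g, g ≠ g1 ∧ d.1 = Finsupp.single (Sum.inr (some g)) 1 + Finsupp.single (Sum.inr (some g)) 1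
    then 1 / 2 else 0

lemma pair_eq {o o' p p' : Option γ}
    (h : (Finsupp.single (Sum.inr o) 1 + Finsupp.single (Sum.inr o') 1 : β ⊕ Option γ →₀ ℕ) =
      Finsupp.single (Sum.inr p) 1 + Finsupp.single (Sum.inr p') 1) :
    (o = p ∧ o' = p') ∨ (o = p' ∧ o' = p) := by
  have h1 := DFunLike.congr_fun h (Sum.inr o)
  have h2 := DFunLike.congr_fun h (Sum.inr o')
  have h3 := DFunLike.congr_fun h (Sum.inr p)
  have h4 := DFunLike.congr_fun h (Sum.inr p')
  simp only [Finsupp.add_apply, Finsupp.single_apply, Sum.inr.injEq] at h1 h2 h3 h4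
  by_cases e1 : o = p
  · subst e1
    by_cases e2 : o' = p'
    · exact Or.inl ⟨rfl, e2⟩
    · exfalso
      by_cases e3 : o = p'
      · subst e3
        have h5 := add_left_cancel h
        exact e2 (Sum.inr_injective (Finsupp.single_left_injective one_ne_zero h5))
      · by_cases e4 : o' = o
        · subst e4
          simp [Ne.symm e2, e3] at h1 h2 h3 h4
        · simp [e4, Ne.symm e4, e2, Ne.symm e2, e3, Ne.symm e3] at h1 h2 h3 h4
  · by_cases e2 : o = p'
    · subst e2
      by_cases e3 : o' = p
      · exact Or.inr ⟨rfl, e3⟩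
      · exfalso
        simp [e1, Ne.symm e1, e3, Ne.symm e3] at h1 h2 h3 h4
    · exfalso
      simp [e1, Ne.symm e1, e2, Ne.symm e2] at h1

include g1 in
lemma det_MM : (MM (γ := γ) c e).det ≠ 0 := by
  classical
  intro h
  have h1 := congrArg (eval (pt g1)) h
  rw [map_zero, RingHom.map_det] at h1
  have h2 : (eval (pt g1)).mapMatrix (MM (γ := γ) c e) =
      (Equiv.swap none (some g1)).toPEquiv.toMatrix := by
    ext o o'
    rw [RingHom.mapMatrix_apply, Matrix.map_apply, PEquiv.toMatrix_apply]
    simp only [Equiv.toPEquiv_apply, Option.mem_def, Option.some.injEq]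
    rw [MM]
    rcases o with _ | g
    · rcases o' with _ | g'
      · simp
      · rw [Equiv.swap_apply_left]
        by_cases hg : g1 = g'
        · subst hg
          simp [pt]
        · have h3 : ¬ (Finsupp.single (Sum.inr none) 1 + Finsupp.single (Sum.inr (some g')) 1 :
              β ⊕ Option γ →₀ ℕ) =
              Finsupp.single (Sum.inr none) 1 + Finsupp.single (Sum.inr (some g1)) 1 := by
            intro h3
            rcases pair_eq h3 with h4 | h4
            · exact hg (by simpa using h4.2.symm)
            · simpa using h4.1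
          have h5 : ¬ ∃ g, g ≠ g1 ∧ (Finsupp.single (Sum.inr none) 1 +
              Finsupp.single (Sum.inr (some g')) 1 : β ⊕ Option γ →₀ ℕ) =
              Finsupp.single (Sum.inr (some g)) 1 + Finsupp.single (Sum.inr (some g)) 1 := by
            rintro ⟨g, -, h5⟩
            rcases pair_eq h5 with h4 | h4 <;> simpa using h4.1
          simp [pt, h3, h5, hg]
    · rcases o' with _ | g'
      · by_cases hg : g = g1
        · subst hg
          rw [Equiv.swap_apply_right]
          simp [pt, add_comm]
        · rw [Equiv.swap_apply_of_ne_of_ne (by simp) (by simpa using hg)]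
          have h3 : ¬ (Finsupp.single (Sum.inr (some g)) 1 + Finsupp.single (Sum.inr none) 1 :
              β ⊕ Option γ →₀ ℕ) =
              Finsupp.single (Sum.inr none) 1 + Finsupp.single (Sum.inr (some g1)) 1 := by
            intro h3
            rcases pair_eq h3 with h4 | h4
            · simpa using h4.1
            · exact hg (by simpa using h4.1)
          have h5 : ¬ ∃ g2, g2 ≠ g1 ∧ (Finsupp.single (Sum.inr (some g)) 1 +
              Finsupp.single (Sum.inr none) 1 : β ⊕ Option γ →₀ ℕ) =
              Finsupp.single (Sum.inr (some g2)) 1 + Finsupp.single (Sum.inr (some g2)) 1 := by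
            rintro ⟨g2, -, h5⟩
            rcases pair_eq h5 with h4 | h4 <;> simpa using h4.2
          simp [pt, h3, h5]
      · have h3 : ¬ (Finsupp.single (Sum.inr (some g)) 1 + Finsupp.single (Sum.inr (some g')) 1 :
              β ⊕ Option γ →₀ ℕ) =
              Finsupp.single (Sum.inr none) 1 + Finsupp.single (Sum.inr (some g1)) 1 := by
            intro h3
            rcases pair_eq h3 with h4 | h4
            · simpa using h4.1
            · simpa using h4.2
        by_cases hg : g = g1
        · subst hg
          rw [Equiv.swap_apply_right]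
          have h5 : ¬ ∃ g2, g2 ≠ g ∧ (Finsupp.single (Sum.inr (some g)) 1 +
              Finsupp.single (Sum.inr (some g')) 1 : β ⊕ Option γ →₀ ℕ) =
              Finsupp.single (Sum.inr (some g2)) 1 + Finsupp.single (Sum.inr (some g2)) 1 := by
            rintro ⟨g2, h6, h5⟩
            rcases pair_eq h5 with h4 | h4
            · exact h6 (by simpa using h4.1.symm)
            · exact h6 (by simpa using h4.1.symm)
          simp [pt, h3, h5]
        · rw [Equiv.swap_apply_of_ne_of_ne (by simp) (by simpa using hg)]
          by_cases hg' : g = g'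
          · subst hg'
            have h5 : ∃ g2, g2 ≠ g1 ∧ (Finsupp.single (Sum.inr (some g)) 1 +
                Finsupp.single (Sum.inr (some g)) 1 : β ⊕ Option γ →₀ ℕ) =
                Finsupp.single (Sum.inr (some g2)) 1 + Finsupp.single (Sum.inr (some g2)) 1 :=
              ⟨g, hg, rfl⟩
            have h6 : pt (c := c) (e := e) g1 ⟨Finsupp.single (Sum.inr (some g)) 1 +
                Finsupp.single (Sum.inr (some g)) 1, in2 _ _⟩ = 1 / 2 := by
              rw [pt, if_neg h3, if_pos h5]
            simp [h6]
          · have h5 : ¬ ∃ g2, g2 ≠ g1 ∧ (Finsupp.single (Sum.inr (some g)) 1 +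
                Finsupp.single (Sum.inr (some g')) 1 : β ⊕ Option γ →₀ ℕ) =
                Finsupp.single (Sum.inr (some g2)) 1 + Finsupp.single (Sum.inr (some g2)) 1 := by
              rintro ⟨g2, h6, h5⟩
              rcases pair_eq h5 with h4 | h4
              · exact hg' (by simpa using h4.1.trans h4.2.symm)
              · exact hg' (by simpa using h4.1.trans h4.2.symm)
            have h6 : pt (c := c) (e := e) g1 ⟨Finsupp.single (Sum.inr (some g)) 1 +
                Finsupp.single (Sum.inr (some g')) 1, in2 _ _⟩ = 0 := by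
              rw [pt, if_neg h3, if_neg h5]
            simp [h6, hg']
  rw [h2, Matrix.det_permutation] at h1
  simp at h1

end

end Pool.Agent.K9h33.NOD
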