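import Pool.Agent.K9h33.NOD.Gen2

/-!
Generic polynomials of bounded multidegree: the parameters are algebraic over the coefficients.
-/

set_option autoImplicit false
set_option linter.unusedSectionVars false
set_option linter.unusedVariables false
set_option linter.unusedSimpArgs false

open MvPolynomial

namespace Pool.Agent.K9h33.NOD

variable {β γ : Type} [Fintype β] [Fintype γ] [DecidableEq β] [DecidableEq γ]
  {c : β → ℕ} {e : ℕ → ℕ} {Ω : Type} [Field Ω] [CharZero Ω] {x : Ex (γ := γ) c e → Ω}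
  {i1 : β} {g1 : γ}

lemma not_E0_inl (i : β) : ¬ E0 (Finsupp.single (Sum.inl i) 1 : β ⊕ Option γ →₀ ℕ) := by
  rintro (h | ⟨o, h⟩ | h)
  · have := DFunLike.congr_fun h (Sum.inl i)
    simp at this
  · have := DFunLike.congr_fun h (Sum.inl i)
    simp at this
  · have := DFunLike.congr_fun h (Sum.inl i)
    simp at this

lemma sum_inr_eq {d d' : β ⊕ Option γ →₀ ℕ} (h : d = d') :
    ∑ o, d (Sum.inr o) = ∑ o, d' (Sum.inr o) := by rw [h]

lemma not_E0_pair {o o' : Option γ} (h : ¬ (o = none ∧ o' = none)) :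
    ¬ E0 (Finsupp.single (Sum.inr o) 1 + Finsupp.single (Sum.inr o') 1 : β ⊕ Option γ →₀ ℕ) := by
  rintro (h1 | ⟨p, h1⟩ | h1)
  · have := sum_inr_eq h1
    simp only [Finsupp.add_apply, Finset.sum_add_distrib, sum_single] at this
    simp at this
  · have := sum_inr_eq h1
    simp only [Finsupp.add_apply, Finset.sum_add_distrib, sum_single] at this
    simp at this
  · have h2 : (Finsupp.single (Sum.inr none) 2 : β ⊕ Option γ →₀ ℕ) =
        Finsupp.single (Sum.inr none) 1 + Finsupp.single (Sum.inr none) 1 := by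
      rw [← Finsupp.single_add]
    rw [h2] at h1
    rcases pair_eq h1 with h3 | h3
    · exact h h3
    · exact h h3

lemma not_E0_cube : ¬ E0 (Finsupp.single (Sum.inr none) 3 : β ⊕ Option γ →₀ ℕ) := by
  rintro (h1 | ⟨p, h1⟩ | h1)
  · have := sum_inr_eq h1
    simp [sum_single] at this
  · have := sum_inr_eq h1
    simp only [sum_single] at this
    omega
  · have := sum_inr_eq h1
    simp only [sum_single] at this
    omega

lemma E0_one (o : Option γ) : E0 (Finsupp.single (Sum.inr o) 1 : β ⊕ Option γ →₀ ℕ) :=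
  Or.inr (Or.inl ⟨o, rfl⟩)

/-- the field generated by the coefficients -/
noncomputable abbrev kz (x : Ex (γ := γ) c e → Ω) (i1 : β) (g1 : γ) : IntermediateField ℚ Ω :=
  IntermediateField.adjoin ℚ (Set.range (co x i1 g1))

/-- the generic polynomial over the field generated by the coefficients -/
noncomputable def fk (x : Ex (γ := γ) c e → Ω) (i1 : β) (g1 : γ) :
    MvPolynomial (β ⊕ Option γ) (kz x i1 g1) :=
  ∑ d : Ex (γ := γ) c e, monomial d.1
    ⟨co x i1 g1 d, IntermediateField.subset_adjoin ℚ _ (Set.mem_range_self d)⟩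

lemma map_fk : map (algebraMap (kz x i1 g1) Ω) (fk x i1 g1) = fo x i1 g1 := by
  rw [fk, map_sum]
  simp only [map_monomial]
  exact sum_supp (supp_fo x i1 g1)

section der

variable (D : Derivation (kz x i1 g1) Ω Ω)

/-- the derivatives of the generic polynomial -/
noncomputable def PP (x : Ex (γ := γ) c e → Ω) (i1 : β) (g1 : γ) (v : β ⊕ Option γ) :
    MvPolynomial (β ⊕ Option γ) Ω :=
  aeval (shf i1 g1 (eta x) (bb x) (tau x)) (pderiv v (fk x i1 g1))

lemma aeval_fk : aeval (shf i1 g1 (eta x) (bb x) (tau x)) (fk x i1 g1) = fz x := by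
  rw [← shf_fo x i1 g1, ← map_fk, aeval_map_algebraMap]

lemma chain_D : cD D (fz x) = ∑ v, PP x i1 g1 v * cD D (shf i1 g1 (eta x) (bb x) (tau x) v) := by
  have h1 := chain (cDd D) (shf i1 g1 (eta x) (bb x) (tau x)) (fk x i1 g1)
  rw [aeval_fk] at h1
  exact h1

lemma chain_p (w : β ⊕ Option γ) : pderiv w (fz x) =
    ∑ v, PP x i1 g1 v * pderiv w (shf i1 g1 (eta x) (bb x) (tau x) v) := by
  have h1 := chain ((pderiv w : Derivation Ω (MvPolynomial (β ⊕ Option γ) Ω)
    (MvPolynomial (β ⊕ Option γ) Ω)).restrictScalars (kz x i1 g1))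
    (shf i1 g1 (eta x) (bb x) (tau x)) (fk x i1 g1)
  rw [aeval_fk] at h1
  exact h1

lemma pd_shf (w v : β ⊕ Option γ) : pderiv w (shf i1 g1 (eta x) (bb x) (tau x) v) =
    (if v = w then 1 else 0) + (if w = Sum.inr none ∧ v = Sum.inr (some g1) then C (tau x) else 0) := by
  rcases v with i | o
  · rw [shf, map_add, pderiv_C, add_zero, pderiv_X, Pi.single_apply]
    simp
  · rw [shf, map_add, map_add, pderiv_C, add_zero, pderiv_C_mul, pderiv_X, pderiv_X, Pi.single_apply,
      Pi.single_apply]
    congr 1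
    by_cases h1 : (Sum.inr none : β ⊕ Option γ) = w
    · subst h1
      rcases o with _ | g
      · simp
      · by_cases h2 : g = g1
        · subst h2
          simp
        · simp [h2]
    · rw [if_neg h1, mul_zero, if_neg]
      exact fun h => h1 h.1.symm

lemma pd_inl (i : β) : pderiv (Sum.inl i) (fz x) = PP x i1 g1 (Sum.inl i) := by
  rw [chain_p (i1 := i1) (g1 := g1), Finset.sum_eq_single (Sum.inl i)]
  · rw [pd_shf]
    simp
  · intro v _ hv
    rw [pd_shf]
    simp [hv]
  · simp

lemma pd_some (g : γ) : pderiv (Sum.inr (some g)) (fz x) = PP x i1 g1 (Sum.inr (some g)) := by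
  rw [chain_p (i1 := i1) (g1 := g1), Finset.sum_eq_single (Sum.inr (some g))]
  · rw [pd_shf]
    simp
  · intro v _ hv
    rw [pd_shf]
    simp [hv]
  · simp

lemma pd_none : pderiv (Sum.inr none) (fz x) = PP x i1 g1 (Sum.inr none) +
    PP x i1 g1 (Sum.inr (some g1)) * C (tau x) := by
  rw [chain_p (i1 := i1) (g1 := g1)]
  have h1 : ∀ v, PP x i1 g1 v * pderiv (Sum.inr none) (shf i1 g1 (eta x) (bb x) (tau x) v) =
      (if v = Sum.inr none then PP x i1 g1 v else 0) +
        (if v = Sum.inr (some g1) then PP x i1 g1 v * C (tau x) else 0) := by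
    intro v
    rw [pd_shf, mul_add]
    congr 1
    · split_ifs <;> simp
    · by_cases h : v = Sum.inr (some g1) <;> simp [h]
  rw [Finset.sum_congr rfl fun v _ => h1 v, Finset.sum_add_distrib, Finset.sum_ite_eq' Finset.univ,
    Finset.sum_ite_eq' Finset.univ, if_pos (Finset.mem_univ _), if_pos (Finset.mem_univ _)]

lemma cD_shf (D : Derivation (kz x i1 g1) Ω Ω) (v : β ⊕ Option γ) :
    cD D (shf i1 g1 (eta x) (bb x) (tau x) v) = match v with
      | Sum.inl i => C (if i = i1 then D (eta x) else 0)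
      | Sum.inr o => C (D (bb x o)) + C (if o = some g1 then D (tau x) else 0) * X (Sum.inr none) := by
  rcases v with i | o
  · simp only [shf]
    rw [← cDd_apply, map_add, cDd_apply, cDd_apply, cD_X, cD_C, zero_add]
    congr 1
    split_ifs
    · rfl
    · exact map_zero D
  · simp only [shf]
    rw [← cDd_apply, map_add, map_add, Derivation.leibniz]
    simp only [cDd_apply]
    rw [cD_X, cD_X, cD_C, cD_C, zero_add, smul_zero, zero_add, smul_eq_mul, mul_comm (X _)]
    congr 2
    split_ifs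
    · rfl
    · rw [map_zero]

/-- the equation for the derivation -/
lemma main_eq (D : Derivation (kz x i1 g1) Ω Ω) : cD D (fz x) =
    PP x i1 g1 (Sum.inl i1) * C (D (eta x)) + ∑ o, PP x i1 g1 (Sum.inr o) * C (D (bb x o)) +
      PP x i1 g1 (Sum.inr (some g1)) * (C (D (tau x)) * X (Sum.inr none)) := by
  rw [chain_D, Fintype.sum_sum_type]
  simp only [cD_shf]
  rw [add_assoc]
  congr 1
  · rw [Finset.sum_eq_single i1]
    · simp
    · intro i _ hi
      simp [hi]
    · simp
  · simp only [mul_add, Finset.sum_add_distrib]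
    congr 1
    rw [Finset.sum_eq_single (some g1)]
    · simp
    · intro o _ ho
      simp [ho]
    · simp

lemma coeff_mul_C' (p : MvPolynomial (β ⊕ Option γ) Ω) (a : Ω) (d : β ⊕ Option γ →₀ ℕ) :
    coeff d (p * C a) = coeff d p * a := by
  rw [mul_comm, coeff_C_mul, mul_comm]

lemma c0_some (g : γ) : coeff 0 (PP x i1 g1 (Sum.inr (some g))) = 0 := by
  rw [← pd_some, coeff_pderiv, zero_add, coeff_fz0 x (E0_one _), zero_mul]

lemma c0_none : coeff 0 (PP x i1 g1 (Sum.inr none)) = 0 := by
  have h1 : PP x i1 g1 (Sum.inr none) = pderiv (Sum.inr none) (fz x) -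
      PP x i1 g1 (Sum.inr (some g1)) * C (tau x) := by
    rw [pd_none (i1 := i1) (g1 := g1), add_sub_cancel_right]
  rw [h1, coeff_sub, coeff_mul_C', c0_some, zero_mul, sub_zero, coeff_pderiv, zero_add,
    coeff_fz0 x (E0_one _), zero_mul]

lemma c0_inr (o : Option γ) : coeff 0 (PP x i1 g1 (Sum.inr o)) = 0 := by
  rcases o with _ | g
  · exact c0_none
  · exact c0_some g

lemma coeff_zero_X (p : MvPolynomial (β ⊕ Option γ) Ω) (a : Ω) (v : β ⊕ Option γ) :
    coeff 0 (p * (C a * X v)) = 0 := by
  rw [← constantCoeff_eq]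
  simp

lemma D_eta (D : Derivation (kz x i1 g1) Ω Ω) (hi1 : 1 ≤ e (c i1))
    (hx : x ⟨Finsupp.single (Sum.inl i1) 1, iny i1 hi1⟩ ≠ 0) : D (eta x) = 0 := by
  have h1 := congrArg (coeff 0) (main_eq D)
  rw [coeff_cD, coeff_fz0 x (Or.inl rfl), map_zero, coeff_add, coeff_add, coeff_mul_C',
    coeff_sum, coeff_zero_X, add_zero] at h1
  simp only [coeff_mul_C', c0_inr, zero_mul, Finset.sum_const_zero, add_zero] at h1
  rw [← pd_inl, coeff_pderiv, zero_add, coeff_fz x (iny i1 hi1) (not_E0_inl i1)] at h1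
  simp only [Finsupp.coe_zero, Pi.zero_apply, Nat.cast_zero, zero_add, mul_one] at h1
  exact (mul_eq_zero.1 h1.symm).resolve_left hx

/-- the Hesse matrix -/
noncomputable def HH (x : Ex (γ := γ) c e → Ω) : Matrix (Option γ) (Option γ) Ω :=
  fun o o' => coeff (Finsupp.single (Sum.inr o) 1) (pderiv (Sum.inr o') (fz x))

lemma HH_eq (o o' : Option γ) : HH x o o' = aeval x (MM c e o o') := by
  rw [HH, MM, coeff_pderiv]
  split_ifs with h h2
  · obtain ⟨rfl, rfl⟩ := h
    have h3 : (Finsupp.single (Sum.inr none) 1 + Finsupp.single (Sum.inr none) 1 :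
        β ⊕ Option γ →₀ ℕ) = Finsupp.single (Sum.inr none) 2 := by
      rw [← Finsupp.single_add]
    rw [h3, coeff_fz0 x (Or.inr (Or.inr rfl)), zero_mul, map_zero]
  · subst h2
    rw [coeff_fz x (in2 o o) (not_E0_pair h), map_mul, aeval_X]
    simp
    ring
  · rw [coeff_fz x (in2 o o') (not_E0_pair h), map_mul, aeval_X]
    have h3 : (Finsupp.single (Sum.inr o) 1 : β ⊕ Option γ →₀ ℕ) (Sum.inr o') = 0 := by
      rw [Finsupp.single_apply, if_neg]
      exact fun h4 => h2 (Sum.inr_injective h4)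
    rw [h3]
    simp

lemma D_bb (hx : AlgebraicIndependent ℚ x) (D : Derivation (kz x i1 g1) Ω Ω)
    (hη : D (eta x) = 0) (o : Option γ) : D (bb x o) = 0 := by
  classical
  obtain ⟨v, hv⟩ : ∃ v : Option γ → Ω, v = fun o' => D (bb x o') -
    (if o' = some g1 then tau x * D (bb x none) else 0) := ⟨_, rfl⟩
  have hdet : (HH x).det ≠ 0 := by
    have h1 : HH x = (aeval x).toRingHom.mapMatrix (MM c e) := by
      ext o o'
      rw [HH_eq]
      rfl
    rw [h1, ← RingHom.map_det]
    intro h2
    exact det_MM (γ := γ) (c := c) (e := e) g1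
      (hx (by
        change aeval x (MM c e).det = aeval x 0
        rw [map_zero]
        exact h2))
  have hmul : (HH x).mulVec v = 0 := by
    funext o
    have h1 := congrArg (coeff (Finsupp.single (Sum.inr o) 1)) (main_eq D)
    rw [coeff_cD, coeff_fz0 x (E0_one _), map_zero, hη, map_zero, mul_zero, zero_add, coeff_add,
      coeff_sum] at h1
    have h2 : coeff (Finsupp.single (Sum.inr o) 1) (PP x i1 g1 (Sum.inr (some g1)) *
        (C (D (tau x)) * X (Sum.inr none))) = 0 := by
      rw [← mul_assoc, coeff_mul_X']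
      split_ifs with h3
      · have h4 : o = none := by
          by_contra h5
          rw [Finsupp.mem_support_iff, Finsupp.single_apply, if_neg] at h3
          · exact h3 rfl
          · exact fun h6 => h5 (Sum.inr_injective h6)
        subst h4
        rw [tsub_self, coeff_mul_C', c0_some, zero_mul]
      · rfl
    rw [h2, add_zero] at h1
    simp only [coeff_mul_C'] at h1
    rw [Matrix.mulVec, dotProduct, Pi.zero_apply, h1]
    simp only [hv, mul_sub, Finset.sum_sub_distrib, mul_ite, mul_zero]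
    rw [Finset.sum_ite_eq' Finset.univ, if_pos (Finset.mem_univ _), Fintype.sum_option,
      Fintype.sum_option]
    have h5 : ∀ g, HH x o (some g) = coeff (Finsupp.single (Sum.inr o) 1)
        (PP x i1 g1 (Sum.inr (some g))) := fun g => by rw [HH, pd_some]
    have h6 : HH x o none = coeff (Finsupp.single (Sum.inr o) 1) (PP x i1 g1 (Sum.inr none)) +
        coeff (Finsupp.single (Sum.inr o) 1) (PP x i1 g1 (Sum.inr (some g1))) * tau x := by
      rw [HH, pd_none (i1 := i1) (g1 := g1), coeff_add, coeff_mul_C']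
    simp only [h5, h6]
    ring
  have hv0 := Matrix.eq_zero_of_mulVec_eq_zero hdet hmul
  have hn : D (bb x none) = 0 := by
    have := congrFun hv0 none
    rw [hv] at this
    simpa using this
  have ho := congrFun hv0 o
  rw [hv] at ho
  simp only [hn, mul_zero, ite_self, sub_zero] at ho
  exact ho

lemma D_tau (D : Derivation (kz x i1 g1) Ω Ω) (hη : D (eta x) = 0) (hb : ∀ o, D (bb x o) = 0)
    (hx : x ⟨Finsupp.single (Sum.inr none) 1 + Finsupp.single (Sum.inr (some g1)) 1, in2 _ _⟩ ≠ 0) :
    D (tau x) = 0 := by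
  have h1 := congrArg (coeff (Finsupp.single (Sum.inr none) 2)) (main_eq D)
  simp only [hη, hb, map_zero, mul_zero, Finset.sum_const_zero, zero_add] at h1
  rw [coeff_cD, coeff_fz0 x (Or.inr (Or.inr rfl)), map_zero, ← mul_assoc] at h1
  have h3 : (Finsupp.single (Sum.inr none) 2 : β ⊕ Option γ →₀ ℕ) =
      Finsupp.single (Sum.inr none) 1 + Finsupp.single (Sum.inr none) 1 := by
    rw [← Finsupp.single_add]
  rw [h3, coeff_mul_X, coeff_mul_C', ← pd_some, coeff_pderiv,
    coeff_fz x (in2 _ _) (not_E0_pair (by simp))] at h1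
  have h4 : (Finsupp.single (Sum.inr none) 1 : β ⊕ Option γ →₀ ℕ) (Sum.inr (some g1)) = 0 := by
    rw [Finsupp.single_apply, if_neg]
    simp
  rw [h4] at h1
  simp only [Nat.cast_zero, zero_add, mul_one] at h1
  exact (mul_eq_zero.1 h1.symm).resolve_left hx

lemma D_all (hx : AlgebraicIndependent ℚ x) (hi1 : 1 ≤ e (c i1))
    (D : Derivation (kz x i1 g1) Ω Ω) (d : Ex (γ := γ) c e) : D (x d) = 0 := by
  have hne : ∀ d, x d ≠ 0 := fun d => hx.ne_zero d
  have hη := D_eta D hi1 (hne _)
  have hb := D_bb hx D hη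
  have hτ := D_tau D hη hb (hne _)
  by_cases h : E0 d.1
  · obtain ⟨d, hd⟩ := d
    rcases h with h | ⟨o, h⟩ | h
    · subst h
      exact hη
    · subst h
      exact hb o
    · subst h
      exact hτ
  · have h1 := congrArg (coeff d.1) (main_eq D)
    simp only [hη, hb, hτ, map_zero, mul_zero, zero_mul, Finset.sum_const_zero, zero_add, add_zero,
      coeff_zero] at h1
    rw [coeff_cD, coeff_fz x d.2 h] at h1
    exact h1

end der

/-- **The parameters are algebraic over the coefficients.** -/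
theorem alg_x (hx : AlgebraicIndependent ℚ x) (hi1 : 1 ≤ e (c i1)) (d : Ex (γ := γ) c e) :
    IsAlgebraic (kz x i1 g1) (x d) := by
  by_contra h
  obtain ⟨D, hD⟩ := _root_.H497R2.exists_derivation (kz x i1 g1) Ω h
  rw [D_all hx hi1 D d] at hD
  exact zero_ne_one hD

end Pool.Agent.K9h33.NOD
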