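import Pool.Agent.K9h33.NOD.Gen3

/-!
Generic polynomials of bounded multidegree have a double point in special position, after a
translation and a linear substitution.
-/

set_option autoImplicit false
set_option linter.unusedSectionVars false
set_option linter.unusedVariables false
set_option linter.unusedSimpArgs false

open MvPolynomial

namespace Pool.Agent.K9h33.NOD

variable {β γ : Type} [Fintype β] [Fintype γ] [DecidableEq β] [DecidableEq γ]
  {c : β → ℕ} {e : ℕ → ℕ}

/-- the universal field -/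
abbrev U0 (γ : Type) {β : Type} [Fintype β] [Fintype γ] [DecidableEq β] [DecidableEq γ]
    (c : β → ℕ) (e : ℕ → ℕ) : Type :=
  AlgebraicClosure (FractionRing (MvPolynomial (Ex (γ := γ) c e) ℚ))

/-- the generic parameters -/
noncomputable def xg (d : Ex (γ := γ) c e) : U0 γ c e :=
  algebraMap (FractionRing (MvPolynomial (Ex (γ := γ) c e) ℚ)) _
    (algebraMap (MvPolynomial (Ex (γ := γ) c e) ℚ) _ (X d))

lemma tb_xg : IsTranscendenceBasis ℚ (xg (γ := γ) (c := c) (e := e)) := by
  have h1 : IsTranscendenceBasis ℚ (X : Ex (γ := γ) c e → MvPolynomial (Ex (γ := γ) c e) ℚ) :=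
    IsTranscendenceBasis.mvPolynomial _ ℚ
  have : Algebra.IsAlgebraic (MvPolynomial (Ex (γ := γ) c e) ℚ)
    (FractionRing (MvPolynomial (Ex (γ := γ) c e) ℚ)) := IsLocalization.isAlgebraic _
      (nonZeroDivisors (MvPolynomial (Ex (γ := γ) c e) ℚ))
  have h2 := h1.algebraMap_comp (A := FractionRing (MvPolynomial (Ex (γ := γ) c e) ℚ))
  have h3 := h2.algebraMap_comp (A := U0 γ c e)
  exact h3

section

variable (i1 : β) (g1 : γ)

/-- the ring generated by the coefficients -/
noncomputable abbrev R0 (c : β → ℕ) (e : ℕ → ℕ) (i1 : β) (g1 : γ) : Subalgebra ℚ (U0 γ c e) :=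
  Algebra.adjoin ℚ (Set.range (co (xg (γ := γ) (c := c) (e := e)) i1 g1))

open scoped IntermediateField.algebraAdjoinAdjoin in
lemma alg_R0 (hi1 : 1 ≤ e (c i1)) : Algebra.IsAlgebraic (R0 c e i1 g1) (U0 γ c e) := by
  rw [tb_xg.isAlgebraic_iff]
  intro d
  have h1 := alg_x (i1 := i1) (g1 := g1) tb_xg.1 hi1 d
  exact (IsFractionRing.isAlgebraic_iff (R0 c e i1 g1) (kz (xg (γ := γ) (c := c) (e := e)) i1 g1)
    (U0 γ c e)).2 h1

lemma tb_co (hi1 : 1 ≤ e (c i1)) :
    IsTranscendenceBasis ℚ (co (xg (γ := γ) (c := c) (e := e)) i1 g1) := by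
  have := alg_R0 i1 g1 hi1
  apply Algebra.IsAlgebraic.isTranscendenceBasis_of_lift_le_trdeg_of_finite
  rw [← tb_xg.lift_cardinalMk_eq_trdeg]

/-- a double point in special position, after a translation and a linear substitution -/
structure Good (c : β → ℕ) (e : ℕ → ℕ) (i1 : β) (g1 : γ) {R : Type} [CommRing R]
    (f : MvPolynomial (β ⊕ Option γ) R) (η : R) (b : Option γ → R) (τ : R) : Prop where
  zero : ∀ d : Ex (γ := γ) c e, E0 d.1 → coeff d.1 (aeval (shf i1 g1 η b τ) f) = 0
  mix : coeff (Finsupp.single (Sum.inr none) 1 + Finsupp.single (Sum.inr (some g1)) 1)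
    (aeval (shf i1 g1 η b τ) f) ≠ 0
  cube : coeff (Finsupp.single (Sum.inr none) 3) (aeval (shf i1 g1 η b τ) f) ≠ 0
  lin : ∀ i, 1 ≤ e (c i) → coeff (Finsupp.single (Sum.inl i) 1) (aeval (shf i1 g1 η b τ) f) ≠ 0

variable {i1 g1}

/-- **Generic polynomials have a double point in special position.** -/
theorem good_generic (hi1 : 1 ≤ e (c i1)) {Ω : Type} [Field Ω] [CharZero Ω] [IsAlgClosed Ω]
    {f : MvPolynomial (β ⊕ Option γ) Ω} (hf : Supp c e f)
    (hind : AlgebraicIndependent ℚ fun d : Ex (γ := γ) c e => coeff d.1 f) :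
    ∃ η b τ, Good c e i1 g1 f η b τ := by
  have hco := (tb_co (γ := γ) i1 g1 hi1).1
  have halg := alg_R0 (γ := γ) i1 g1 hi1
  let ρ : R0 c e i1 g1 →ₐ[ℚ] Ω := (aeval fun d : Ex (γ := γ) c e => coeff d.1 f).comp
    hco.aevalEquiv.symm.toAlgHom
  have h0 : Function.Injective (aeval (R := ℚ) fun d : Ex (γ := γ) c e => coeff d.1 f) := hind
  have hρ : Function.Injective ρ := h0.comp hco.aevalEquiv.symm.injective
  let : Algebra (R0 c e i1 g1) Ω := ρ.toRingHom.toAlgebra
  have : Module.IsTorsionFree (R0 c e i1 g1) Ω :=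
    Module.isTorsionFree_iff_algebraMap_injective.2 hρ
  let ψ : U0 γ c e →ₐ[R0 c e i1 g1] Ω := IsAlgClosed.lift
  have hψ : ∀ d : Ex (γ := γ) c e, ψ (co (xg (γ := γ) (c := c) (e := e)) i1 g1 d) =
      coeff d.1 f := by
    intro d
    have h1 := ψ.commutes ⟨co (xg (γ := γ) (c := c) (e := e)) i1 g1 d,
      Algebra.subset_adjoin (Set.mem_range_self d)⟩
    refine h1.trans ?_
    change ρ _ = _
    have h2 : hco.aevalEquiv (X d) = ⟨co (xg (γ := γ) (c := c) (e := e)) i1 g1 d,
      Algebra.subset_adjoin (Set.mem_range_self d)⟩ := by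
      apply Subtype.ext
      simp
    rw [← h2]
    change aeval _ (hco.aevalEquiv.symm (hco.aevalEquiv (X d))) = _
    rw [AlgEquiv.symm_apply_apply, aeval_X]
  have hmap : map ψ.toRingHom (fo (xg (γ := γ) (c := c) (e := e)) i1 g1) = f := by
    rw [← sum_supp (supp_fo (xg (γ := γ) (c := c) (e := e)) i1 g1), map_sum]
    simp only [map_monomial]
    refine Eq.trans ?_ (sum_supp hf)
    refine Finset.sum_congr rfl fun d _ => ?_
    congr 1
    exact hψ d
  have hx : ∀ d : Ex (γ := γ) c e, ψ.toRingHom (xg d) ≠ 0 := fun d => by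
    rw [Ne, map_eq_zero]
    exact tb_xg.1.ne_zero d
  have hg : aeval (shf i1 g1 (ψ.toRingHom (eta xg)) (fun o => ψ.toRingHom (bb xg o))
      (ψ.toRingHom (tau xg))) f = map ψ.toRingHom (fz (xg (γ := γ) (c := c) (e := e))) := by
    rw [← shf_fo xg i1 g1, map_aeval_shf, hmap]
  refine ⟨ψ.toRingHom (eta xg), fun o => ψ.toRingHom (bb xg o), ψ.toRingHom (tau xg),
    ⟨?_, ?_, ?_, ?_⟩⟩
  · intro d hd
    rw [hg, coeff_map, coeff_fz0 _ hd, map_zero]
  · rw [hg, coeff_map, coeff_fz _ (in2 _ _) (not_E0_pair (by simp))]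
    exact hx _
  · rw [hg, coeff_map, coeff_fz _ (inu none 3 (by norm_num)) not_E0_cube]
    exact hx _
  · intro i hi
    rw [hg, coeff_map, coeff_fz _ (iny i hi) (not_E0_inl i)]
    exact hx _

end

end Pool.Agent.K9h33.NOD
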