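import Pool.Agent.K9h33.NOD.Gen4
import Pool.Agent.K9h33.SYM.Ultra

/-!
A general polynomial of bounded multidegree has a double point in special position.
-/

set_option autoImplicit false
set_option linter.unusedSectionVars false
set_option linter.unusedVariables false
set_option linter.unusedSimpArgs false

open MvPolynomial Filter Pool.Agent.K9h33.SYM

namespace Pool.Agent.K9h33.NOD

variable {β γ : Type} [Fintype β] [Fintype γ] [DecidableEq β] [DecidableEq γ]
  {c : β → ℕ} {e : ℕ → ℕ} {i1 : β} {g1 : γ}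

/-- values at classes of sequences -/
lemma aeval_rat {σ K : Type} [Field K] [CharZero K] (u : ℕ → σ → K) [Algebra ℚ (UP K)]
    (f : MvPolynomial σ ℚ) :
    aeval (fun s => uc fun i => u i s) f = uc fun i => aeval (u i) f := by
  induction f using MvPolynomial.induction_on with
  | C a =>
    simp only [algHom_C]
    exact (RingHom.map_rat_algebraMap (uc (K := K)) a).symm
  | add p q hp hq =>
    simp only [map_add]
    rw [hp, hq, ← map_add]
    rfl
  | mul_X p v hp =>
    simp only [map_mul, aeval_X]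
    rw [hp, ← map_mul]
    rfl

instance {K : Type} [Field K] [CharZero K] : CharZero (UP K) :=
  charZero_of_injective_algebraMap (algebraMap K (UP K)).injective

lemma supp_sum {R : Type} [CommRing R] (a : Ex (γ := γ) c e → R) :
    Supp c e (∑ d : Ex (γ := γ) c e, monomial d.1 (a d)) := by
  classical
  intro d hd
  rw [mem_support_iff, coeff_sum] at hd
  obtain ⟨b, -, hb⟩ := Finset.exists_ne_zero_of_sum_ne_zero hd
  rw [coeff_monomial] at hb
  by_cases h1 : b.1 = d
  · exact h1 ▸ b.2
  · exact absurd (if_neg h1) hb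

lemma coeff_sum' {R : Type} [CommRing R] (a : Ex (γ := γ) c e → R) (d : Ex (γ := γ) c e) :
    coeff d.1 (∑ d : Ex (γ := γ) c e, monomial d.1 (a d)) = a d := by
  classical
  rw [coeff_sum, Finset.sum_eq_single d]
  · rw [coeff_monomial, if_pos rfl]
  · intro b _ hb
    rw [coeff_monomial, if_neg]
    exact fun h => hb (Subtype.ext h)
  · simp

/-- **General polynomials of bounded multidegree have a double point in special position.** -/
theorem good_open (hi1 : 1 ≤ e (c i1)) (K : Type) [Field K] [CharZero K] [IsAlgClosed K] :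
    ∃ Φ : MvPolynomial (Ex (γ := γ) c e) ℚ, Φ ≠ 0 ∧
      ∀ f : MvPolynomial (β ⊕ Option γ) K, Supp c e f →
        aeval (fun d : Ex (γ := γ) c e => coeff d.1 f) Φ ≠ 0 →
          ∃ η b τ, Good c e i1 g1 f η b τ := by
  by_contra hcon
  push Not at hcon
  have hne : Nonempty {Φ : MvPolynomial (Ex (γ := γ) c e) ℚ // Φ ≠ 0} := ⟨⟨1, one_ne_zero⟩⟩
  have hcount : Countable {Φ : MvPolynomial (Ex (γ := γ) c e) ℚ // Φ ≠ 0} := by
    have : Countable (MvPolynomial (Ex (γ := γ) c e) ℚ) := by
      rw [← Cardinal.mk_le_aleph0_iff]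
      refine (MvPolynomial.cardinalMk_le_max).trans ?_
      simp
    infer_instance
  obtain ⟨Φs, hΦs⟩ := exists_surjective_nat {Φ : MvPolynomial (Ex (γ := γ) c e) ℚ // Φ ≠ 0}
  have hP : ∀ n, ∏ k ∈ Finset.range (n + 1), (Φs k).1 ≠ 0 := fun n =>
    Finset.prod_ne_zero_iff.2 fun k _ => (Φs k).2
  choose f hf hfP hbad using fun n => hcon _ (hP n)
  let u : ℕ → Ex (γ := γ) c e → K := fun n d => coeff d.1 (f n)
  let F : MvPolynomial (β ⊕ Option γ) (UP K) :=
    ∑ d : Ex (γ := γ) c e, monomial d.1 (uc fun n => u n d)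
  let FF : MvPolynomial (β ⊕ Option γ) (ℕ → K) :=
    ∑ d : Ex (γ := γ) c e, monomial d.1 (fun n => u n d)
  have hF : Supp c e F := supp_sum _
  have hFF : map uc FF = F := by
    rw [map_sum]
    simp only [map_monomial]
    rfl
  have hFn : ∀ n, map (Pi.evalRingHom (fun _ : ℕ => K) n) FF = f n := by
    intro n
    rw [map_sum]
    simp only [map_monomial]
    exact sum_supp (hf n)
  have hind : AlgebraicIndependent ℚ fun d : Ex (γ := γ) c e => coeff d.1 F := by
    have h0 : (fun d : Ex (γ := γ) c e => coeff d.1 F) = fun d => uc fun n => u n d := by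
      funext d
      exact coeff_sum' _ d
    rw [h0, algebraicIndependent_iff]
    intro Φ h1
    by_contra h2
    rw [aeval_rat, uc_zero] at h1
    obtain ⟨k, hk⟩ := hΦs ⟨Φ, h2⟩
    have h3 : ∀ᶠ j in (UF : Filter ℕ), k ≤ j :=
      Nat.hyperfilter_le_atTop (eventually_ge_atTop k)
    obtain ⟨n, hn, hn'⟩ := (h1.and h3).exists
    apply hfP n
    rw [map_prod]
    refine Finset.prod_eq_zero (Finset.mem_range.2 (Nat.lt_succ_of_le hn')) ?_
    rw [hk]
    exact hn
  have := isAlgClosed_UP (K := K)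
  obtain ⟨η, b, τ, hG⟩ := good_generic (g1 := g1) hi1 hF hind
  obtain ⟨η', rfl⟩ := uc_surj η
  obtain ⟨τ', rfl⟩ := uc_surj τ
  choose b' hb' using fun o => uc_surj (b o)
  obtain rfl : (fun o => uc (b' o)) = b := funext hb'
  let G : MvPolynomial (β ⊕ Option γ) (ℕ → K) := aeval (shf i1 g1 η' b' τ') FF
  have hG1 : aeval (shf i1 g1 (uc η') (fun o => uc (b' o)) (uc τ')) F = map uc G := by
    rw [map_aeval_shf, hFF]
  have hG2 : ∀ n, aeval (shf i1 g1 (η' n) (fun o => b' o n) (τ' n)) (f n) =
      map (Pi.evalRingHom (fun _ : ℕ => K) n) G := by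
    intro n
    rw [map_aeval_shf, hFn]
    rfl
  have hz : ∀ d, coeff d (aeval (shf i1 g1 (uc η') (fun o => uc (b' o)) (uc τ')) F) = 0 →
      ∀ᶠ n in (UF : Filter ℕ),
        coeff d (aeval (shf i1 g1 (η' n) (fun o => b' o n) (τ' n)) (f n)) = 0 := by
    intro d hd
    rw [hG1, coeff_map, uc_zero] at hd
    filter_upwards [hd] with n hn
    rw [hG2, coeff_map]
    exact hn
  have hnz : ∀ d, coeff d (aeval (shf i1 g1 (uc η') (fun o => uc (b' o)) (uc τ')) F) ≠ 0 →
      ∀ᶠ n in (UF : Filter ℕ),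
        coeff d (aeval (shf i1 g1 (η' n) (fun o => b' o n) (τ' n)) (f n)) ≠ 0 := by
    intro d hd
    rw [hG1, coeff_map, Ne, uc_zero] at hd
    have hd' := (Ultrafilter.eventually_not (f := UF)).2 hd
    filter_upwards [hd'] with n hn
    rw [hG2, coeff_map]
    exact hn
  have h1 : ∀ᶠ n in (UF : Filter ℕ), ∀ d : Ex (γ := γ) c e, E0 d.1 →
      coeff d.1 (aeval (shf i1 g1 (η' n) (fun o => b' o n) (τ' n)) (f n)) = 0 := by
    rw [eventually_all]
    intro d
    by_cases hd : E0 d.1
    · filter_upwards [hz d.1 (hG.zero d hd)] with n hn _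
      exact hn
    · exact Eventually.of_forall fun n h => absurd h hd
  have h2 : ∀ᶠ n in (UF : Filter ℕ), ∀ i, 1 ≤ e (c i) →
      coeff (Finsupp.single (Sum.inl i) 1)
        (aeval (shf i1 g1 (η' n) (fun o => b' o n) (τ' n)) (f n)) ≠ 0 := by
    rw [eventually_all]
    intro i
    by_cases hi : 1 ≤ e (c i)
    · filter_upwards [hnz _ (hG.lin i hi)] with n hn _
      exact hn
    · exact Eventually.of_forall fun n h => absurd h hi
  obtain ⟨n, ⟨h3, h4⟩, h5, h6⟩ := ((h1.and h2).and ((hnz _ hG.mix).and (hnz _ hG.cube))).exists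
  exact hbad n _ _ _ ⟨h3, h5, h6, h4⟩

end Pool.Agent.K9h33.NOD
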