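import Pool.Agent.K9h33.NOD.Main

/-!
Double covers branched over a hypersurface with a double point in a fibre: quadratic extensions.
-/

set_option autoImplicit false
set_option linter.unusedSectionVars false
set_option linter.unusedVariables false
set_option linter.unusedSimpArgs false

open MvPolynomial NumberField Filter Topology

namespace Pool.Agent.K9h33.NOD

open Pool.Agent.K9h33.FLG Pool.Agent.Y720.MZ

/-- **Quadratic extensions.** -/
theorem node_quad (K : Type) [Field K] [NumberField K] {β γ : Type} [Fintype β] [Fintype γ]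
    (c : β → ℕ) (f : MvPolynomial (β ⊕ Option γ) K) (hf : Node c f) (g : γ)
    (hg : coeff (Finsupp.single (Sum.inr none) 1 + Finsupp.single (Sum.inr (some g)) 1) f ≠ 0) :
    ∃ (L : Type) (_ : Field L) (_ : NumberField L) (_ : Algebra K L), Module.finrank K L ≤ 2 ∧
      Dense K f L := by
  classical
  obtain ⟨N, hN⟩ := node_point K c f hf g hg
  obtain ⟨a, ha⟩ : ∃ a, a = coeff (Finsupp.single (Sum.inr none) 1 +
    Finsupp.single (Sum.inr (some g)) 1) f := ⟨_, rfl⟩
  obtain ⟨b, hb⟩ : ∃ b, b = coeff (Finsupp.single (Sum.inr (some g)) 2) f := ⟨_, rfl⟩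
  rw [← ha] at hg
  obtain ⟨p, hpN, hp, hd0⟩ : ∃ p, N < p ∧ p.Prime ∧ a + b * (p : K) ^ 3 ≠ 0 := by
    by_contra hcon
    push Not at hcon
    obtain ⟨p1, h1, h2⟩ := Nat.exists_infinite_primes (N + 1)
    obtain ⟨p2, h3, h4⟩ := Nat.exists_infinite_primes (p1 + 1)
    have e1 := hcon p1 (by omega) h2
    have e2 := hcon p2 (by omega) h4
    have e3 : b * ((p2 : K) ^ 3 - (p1 : K) ^ 3) = 0 := by linear_combination e2 - e1
    rcases mul_eq_zero.1 e3 with h5 | h5
    · rw [h5] at e1
      apply hg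
      linear_combination e1
    · have h6 : ((p2 ^ 3 : ℕ) : K) = ((p1 ^ 3 : ℕ) : K) := by
        push_cast
        linear_combination h5
      have h7 : p2 ^ 3 = p1 ^ 3 := Nat.cast_injective h6
      have h8 : p2 = p1 := Nat.pow_left_injective (n := 3) (by norm_num) h7
      omega
  obtain ⟨d, hd⟩ : ∃ d, d = a * (p : K) ^ 3 + b * ((p : K) ^ 3) ^ 2 := ⟨_, rfl⟩
  have hd0' : d ≠ 0 := by
    have h1 : d = (a + b * (p : K) ^ 3) * (p : K) ^ 3 := by rw [hd]; ring
    rw [h1]
    exact mul_ne_zero hd0 (pow_ne_zero _ (Nat.cast_ne_zero.2 hp.ne_zero))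
  -- the field
  obtain ⟨s, hs⟩ : ∃ s : AlgebraicClosure K, s ^ 2 = algebraMap K (AlgebraicClosure K) d :=
    IsAlgClosed.exists_pow_nat_eq _ two_pos
  have hsint : IsIntegral K s := Algebra.IsIntegral.isIntegral s
  let L := IntermediateField.adjoin K {s}
  have hfd : FiniteDimensional K L := IntermediateField.adjoin.finiteDimensional hsint
  have hnf : NumberField L := NumberField.of_module_finite K L
  refine ⟨L, inferInstance, hnf, inferInstance, ?_, ?_⟩
  · have h1 : Module.finrank K L = (minpoly K s).natDegree := IntermediateField.adjoin.finrank hsint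
    rw [h1]
    have h2 : minpoly K s ∣ Polynomial.X ^ 2 - Polynomial.C d := by
      apply minpoly.dvd
      simp [hs]
    refine (Polynomial.natDegree_le_of_dvd h2 ?_).trans ?_
    · exact (Polynomial.monic_X_pow_sub_C d two_ne_zero).ne_zero
    · rw [Polynomial.natDegree_X_pow_sub_C]
  have hsL : s ∈ L := IntermediateField.mem_adjoin_simple_self K s
  refine hN p hp hpN L ((p : 𝓞 L) ^ 3) dvd_rfl ⟨s, hsL⟩ ?_ ?_
  · intro h1
    have h2 : s = 0 := congrArg Subtype.val h1
    rw [h2, zero_pow two_ne_zero] at hs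
    exact hd0' ((map_eq_zero _).1 hs.symm)
  · rw [← ha, ← hb]
    have h1 : (((p : 𝓞 L) ^ 3 : 𝓞 L) : L) = algebraMap K L ((p : K) ^ 3) := by
      simp
    rw [h1, ← map_mul, ← map_pow, ← map_mul, ← map_add, ← hd]
    apply Subtype.ext
    exact hs

end Pool.Agent.K9h33.NOD
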