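import Pool.Agent.K9h33.NOD.Gen5
import Pool.Agent.K9h33.NOD.Quad

/-!
General double covers of products of projective spaces: potential density.
-/

set_option autoImplicit false
set_option linter.unusedSectionVars false
set_option linter.unusedVariables false
set_option linter.unusedSimpArgs false

open MvPolynomial NumberField

namespace Pool.Agent.K9h33.NOD

open Pool.Agent.K9h33.FLG

variable {β γ : Type} [Fintype β] [Fintype γ] [DecidableEq β] [DecidableEq γ]
  {c : β → ℕ} {e : ℕ → ℕ} {i1 : β} {g1 : γ}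

lemma inr_eq {d : β ⊕ Option γ →₀ ℕ} (h : ∀ i, d (Sum.inl i) = 0) (hU : U d ≤ 1) : E0 d := by
  classical
  by_cases h0 : ∀ o, d (Sum.inr o) = 0
  · left
    ext v
    rcases v with i | o
    · exact h i
    · exact h0 o
  · push Not at h0
    obtain ⟨o, ho⟩ := h0
    right; left
    refine ⟨o, ?_⟩
    have h1 : ∀ o', d (Sum.inr o') = if o' = o then 1 else 0 := by
      intro o'
      have h2 : ∑ p, d (Sum.inr p) ≤ 1 := hU
      rw [← Finset.add_sum_erase _ _ (Finset.mem_univ o)] at h2
      by_cases h3 : o' = o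
      · subst h3
        rw [if_pos rfl]
        omega
      · rw [if_neg h3]
        have h4 : d (Sum.inr o') ≤ ∑ p ∈ Finset.univ.erase o, d (Sum.inr p) :=
          Finset.single_le_sum (f := fun p => d (Sum.inr p)) (fun _ _ => Nat.zero_le _)
            (Finset.mem_erase.2 ⟨h3, Finset.mem_univ _⟩)
        omega
    ext v
    rcases v with i | o'
    · rw [h i]
      simp
    · rw [h1 o', Finsupp.single_apply]
      by_cases h3 : o' = o
      · simp [h3]
      · rw [if_neg h3, if_neg]
        exact fun h4 => h3 (Sum.inr_injective h4).symm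

lemma supp_map {R S : Type*} [CommRing R] [CommRing S] (φ : R →+* S)
    {f : MvPolynomial (β ⊕ Option γ) R} (hf : Supp c e f) : Supp c e (map φ f) := by
  intro d hd
  apply hf
  rw [mem_support_iff, coeff_map] at hd
  rw [mem_support_iff]
  intro h
  exact hd (by rw [h, map_zero])

lemma rest_supp {K : Type*} [Field K] {f : MvPolynomial (β ⊕ Option γ) K} (hf : Supp c e f)
    (j : ℕ) : ∀ d ∈ (rest c j f).support, ∑ i with c i = j, d (Sum.inl i) ≤ e j := by
  have h1 : Le (wt c j) (e j) (rest c j f) := by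
    refine Le.aeval (fun v => ?_) ((supp_iff.1 hf).1 j)
    rcases v with i | o
    · simp only [Sum.elim_inl]
      split_ifs
      · exact Le.X _
      · exact Le.zero
    · exact Le.X _
  intro d hd
  rw [← sum_wt]
  exact h1 d hd

/-- a double point in special position -/
lemma Good.node {K : Type} [Field K] [CharZero K] {f : MvPolynomial (β ⊕ Option γ) K} {η : K}
    {b : Option γ → K} {τ : K} (hf : Supp c e f) (he : ∀ j, e j ≤ 4)
    (h : Good c e i1 g1 f η b τ) : Node c (aeval (shf i1 g1 η b τ) f) := by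
  have hs := supp_shf i1 g1 η b τ hf
  have hE : ∀ d : β ⊕ Option γ →₀ ℕ, InE c e d → E0 d →
    coeff d (aeval (shf i1 g1 η b τ) f) = 0 := fun d hd h0 => h.zero ⟨d, hd⟩ h0
  refine ⟨fun d hd => ?_, fun d hd => ?_, hE _ (inu none 2 (by norm_num)) (Or.inr (Or.inr rfl)),
    h.cube, fun j => ?_⟩
  · by_contra h1
    rw [mem_sup] at hd
    have h2 : E0 d := inr_eq hd.2 (by omega)
    exact hd.1 (hE d (hs d (mem_support_iff.2 hd.1)) h2)
  · rw [mem_sup] at hd
    exact (hs d (mem_support_iff.2 hd.1)).2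
  · refine ⟨1, rest c j (aeval (shf i1 g1 η b τ) f), by rw [one_pow, one_mul], ?_⟩
    have h1 := rest_supp hs j
    by_cases hj : ∃ i, c i = j ∧ 1 ≤ e (c i)
    · obtain ⟨i, hi, hi'⟩ := hj
      exact Or.inr ⟨fun d hd => (h1 d hd).trans (he j), i, hi, h.lin i hi'⟩
    · left
      intro d hd
      by_cases hj' : ∃ i, c i = j
      · obtain ⟨i, hi⟩ := hj'
        have h2 : ¬ 1 ≤ e j := fun h3 => hj ⟨i, hi, by rw [hi]; exact h3⟩
        have := h1 d hd
        omega
      · rw [Finset.sum_eq_zero]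
        · norm_num
        · intro i hi
          exact absurd ⟨i, (Finset.mem_filter.1 hi).2⟩ hj'

/-- `Dense` is invariant under the substitutions -/
lemma dense_shf {K L0 L : Type} [Field K] [Field L0] [Field L] [Algebra K L0] [Algebra L0 L]
    [Algebra K L] [IsScalarTower K L0 L] (f : MvPolynomial (β ⊕ Option γ) K) (η : L0)
    (b : Option γ → L0) (τ : L0)
    (h : Dense L0 (aeval (shf i1 g1 η b τ) (map (algebraMap K L0) f)) L) : Dense K f L := by
  obtain ⟨η', hη'⟩ : ∃ x, x = algebraMap L0 L η := ⟨_, rfl⟩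
  obtain ⟨τ', hτ'⟩ : ∃ x, x = algebraMap L0 L τ := ⟨_, rfl⟩
  obtain ⟨b', hb'⟩ : ∃ x, x = fun o => algebraMap L0 L (b o) := ⟨_, rfl⟩
  obtain ⟨F, hF⟩ : ∃ F, F = map (algebraMap K L) f := ⟨_, rfl⟩
  have h1 : map (algebraMap L0 L) (aeval (shf i1 g1 η b τ) (map (algebraMap K L0) f)) =
      aeval (shf i1 g1 η' b' τ') F := by
    rw [map_aeval_shf, map_map, ← IsScalarTower.algebraMap_eq, hη', hb', hτ', hF]
  unfold FLG.Dense at h ⊢
  rw [h1] at h
  rw [← hF]
  intro G hG
  let S : Option (β ⊕ Option γ) → MvPolynomial (Option (β ⊕ Option γ)) L := fun o =>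
    o.elim (X none) fun v => rename some (shf i1 g1 η' b' τ' v)
  let T : Option (β ⊕ Option γ) → MvPolynomial (Option (β ⊕ Option γ)) L := fun o =>
    o.elim (X none) fun v => rename some (shi i1 g1 η' b' τ' v)
  have hren : ∀ (W : β ⊕ Option γ → MvPolynomial (β ⊕ Option γ) L)
      (P : MvPolynomial (β ⊕ Option γ) L),
      aeval (fun o : Option (β ⊕ Option γ) =>
        (o.elim (X none) fun v => rename some (W v) :
          MvPolynomial (Option (β ⊕ Option γ)) L)) (rename some P) = rename some (aeval W P) := by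
    intro W P
    rw [aeval_rename]
    have : ((fun o : Option (β ⊕ Option γ) => (o.elim (X none) fun v => rename some (W v) :
        MvPolynomial (Option (β ⊕ Option γ)) L)) ∘ some) = fun v => rename some (W v) := rfl
    rw [this]
    exact (MvPolynomial.comp_aeval_apply (R := L) W
      (rename some : MvPolynomial (β ⊕ Option γ) L →ₐ[L] _) P).symm
  have hTS : ∀ P, aeval T (aeval S P) = P := by
    intro P
    have h2 : (aeval T).comp (aeval S) = AlgHom.id L _ := by
      apply algHom_ext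
      intro o
      rcases o with _ | v
      · simp [S, T]
      · simp only [AlgHom.comp_apply, aeval_X, AlgHom.id_apply, S, Option.elim_some]
        rw [hren, shi_shf, rename_X]
    exact DFunLike.congr_fun h2 P
  have h2 := h (aeval S G) (fun z w hzw => by
    rw [Pool.Agent.Y720.MZ.eval_sub]
    have h3 := hG (fun v => eval z (shf i1 g1 η' b' τ' v)) w (by
      rw [hzw, Pool.Agent.Y720.MZ.eval_sub])
    refine Eq.trans ?_ h3
    congr 2
    funext o
    rcases o with _ | v
    · simp [S]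
    · simp only [S, Option.elim_some, eval_rename]
      rfl)
  obtain ⟨Q, hQ⟩ := h2
  refine ⟨aeval T Q, ?_⟩
  rw [← hTS G, hQ, map_mul, map_sub, map_pow, aeval_X]
  congr 2
  rw [hren, shi_shf']

lemma alg_Q : Algebra.IsAlgebraic ℚ (AlgebraicClosure ℚ) := by
  have h : (DivisionRing.toRatAlgebra : Algebra ℚ (AlgebraicClosure ℚ)) =
      AlgebraicClosure.instAlgebra ℚ := Subsingleton.elim _ _
  rw [h]
  exact AlgebraicClosure.isAlgebraic ℚ

/-- **General double covers of products: potential density.** -/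
theorem general_dense (hi1 : 1 ≤ e (c i1)) (g1 : γ) (he : ∀ j, e j ≤ 4) :
    ∃ Φ : MvPolynomial (Ex (γ := γ) c e) ℚ, Φ ≠ 0 ∧
      ∀ (K : Type) [Field K] [NumberField K] (f : MvPolynomial (β ⊕ Option γ) K), Supp c e f →
        aeval (fun d : Ex (γ := γ) c e => coeff d.1 f) Φ ≠ 0 →
          ∃ (L : Type) (_ : Field L) (_ : NumberField L) (_ : Algebra K L), Dense K f L := by
  obtain ⟨Φ, hΦ, hmain⟩ := good_open (γ := γ) (g1 := g1) hi1 (AlgebraicClosure ℚ)
  refine ⟨Φ, hΦ, fun K _ _ f hf hfΦ => ?_⟩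
  let ι : K →ₐ[ℚ] AlgebraicClosure ℚ := IsAlgClosed.lift
  let : Algebra K (AlgebraicClosure ℚ) := ι.toRingHom.toAlgebra
  have hι : ∀ x, algebraMap K (AlgebraicClosure ℚ) x = ι x := fun _ => rfl
  obtain ⟨η, b, τ, hG⟩ := hmain (map (algebraMap K (AlgebraicClosure ℚ)) f)
    (supp_map _ hf) (by
      have h1 : aeval (fun d : Ex (γ := γ) c e =>
          coeff d.1 (map (algebraMap K (AlgebraicClosure ℚ)) f)) Φ =
          ι (aeval (fun d : Ex (γ := γ) c e => coeff d.1 f) Φ) := by
        rw [MvPolynomial.comp_aeval_apply]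
        congr 2
      rw [h1]
      exact (map_ne_zero ι).2 hfΦ)
  have : IsScalarTower ℚ K (AlgebraicClosure ℚ) := IsScalarTower.of_algebraMap_eq fun x =>
    (ι.commutes x).symm
  have := alg_Q
  have : Algebra.IsAlgebraic K (AlgebraicClosure ℚ) := Algebra.IsAlgebraic.tower_top (K := ℚ) K
  let L0 : IntermediateField K (AlgebraicClosure ℚ) :=
    IntermediateField.adjoin K ({η, τ} ∪ Set.range b)
  have hfd : FiniteDimensional K L0 := by
    have : Finite ↑(({η, τ} : Set (AlgebraicClosure ℚ)) ∪ Set.range b) :=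
      ((Set.toFinite {η, τ}).union (Set.finite_range b)).to_subtype
    exact IntermediateField.finiteDimensional_adjoin fun x _ => Algebra.IsIntegral.isIntegral x
  have hnf : NumberField L0 := NumberField.of_module_finite K L0
  have hmem : ∀ x ∈ (({η, τ} : Set (AlgebraicClosure ℚ)) ∪ Set.range b), x ∈ L0 := fun x hx =>
    IntermediateField.subset_adjoin K _ hx
  obtain ⟨η', hη'⟩ : ∃ x : L0, algebraMap L0 (AlgebraicClosure ℚ) x = η :=
    ⟨⟨η, hmem _ (by simp)⟩, rfl⟩
  obtain ⟨τ', hτ'⟩ : ∃ x : L0, algebraMap L0 (AlgebraicClosure ℚ) x = τ :=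
    ⟨⟨τ, hmem _ (by simp)⟩, rfl⟩
  obtain ⟨b', hb'⟩ : ∃ x : Option γ → L0, (fun o => algebraMap L0 (AlgebraicClosure ℚ) (x o)) = b :=
    ⟨fun o => ⟨b o, hmem _ (by simp)⟩, rfl⟩
  have hmap : map (algebraMap L0 (AlgebraicClosure ℚ)) (aeval (shf i1 g1 η' b' τ')
      (map (algebraMap K L0) f)) =
      aeval (shf i1 g1 η b τ) (map (algebraMap K (AlgebraicClosure ℚ)) f) := by
    rw [map_aeval_shf, map_map, ← IsScalarTower.algebraMap_eq, hη', hb', hτ']
  have hco : ∀ d, algebraMap L0 (AlgebraicClosure ℚ) (coeff d (aeval (shf i1 g1 η' b' τ')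
      (map (algebraMap K L0) f))) =
      coeff d (aeval (shf i1 g1 η b τ) (map (algebraMap K (AlgebraicClosure ℚ)) f)) := by
    intro d
    rw [← hmap, coeff_map]
  have hG' : Good c e i1 g1 (map (algebraMap K L0) f) η' b' τ' := by
    refine ⟨fun d hd => ?_, fun h => ?_, fun h => ?_, fun i hi h => ?_⟩
    · have h1 := hG.zero d hd
      rw [← hco] at h1
      exact (map_eq_zero _).1 h1
    · apply hG.mix
      rw [← hco, h, map_zero]
    · apply hG.cube
      rw [← hco, h, map_zero]
    · apply hG.lin i hi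
      rw [← hco, h, map_zero]
  have hnode := hG'.node (supp_map _ hf) he
  obtain ⟨L, hL1, hL2, hL3, -, hdense⟩ := node_quad L0 c _ hnode g1 hG'.mix
  let : Algebra K L := ((algebraMap L0 L).comp (algebraMap K L0)).toAlgebra
  have : IsScalarTower K L0 L := IsScalarTower.of_algebraMap_eq fun _ => rfl
  exact ⟨L, hL1, hL2, inferInstance, dense_shf f η' b' τ' hdense⟩

end Pool.Agent.K9h33.NOD
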