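import Pool.Agent.K9h33.FLG.Fin

/-!
Blowing up: the substitution `u_g = s t_g` in polynomials with two groups of variables.
-/

set_option autoImplicit false
set_option linter.unusedSectionVars false
set_option linter.unusedVariables false
set_option linter.unusedSimpArgs false

open MvPolynomial

namespace Pool.Agent.K9h33.NOD

open Pool.Agent.K9h33.FLG Pool.Agent.Y720.MZ

variable {K : Type*} [Field K] [CharZero K] {β γ : Type*} [Fintype β] [Fintype γ] [DecidableEq β]
  [DecidableEq γ]

/-- the exponent of the monomial which is substituted for a variable -/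
noncomputable def del : β ⊕ Option γ → (β ⊕ Option γ →₀ ℕ)
  | Sum.inl i => Finsupp.single (Sum.inl i) 1
  | Sum.inr none => Finsupp.single (Sum.inr none) 1
  | Sum.inr (some g) => Finsupp.single (Sum.inr none) 1 + Finsupp.single (Sum.inr (some g)) 1

/-- the exponents of the images of the monomials -/
noncomputable def phi (d : β ⊕ Option γ →₀ ℕ) : β ⊕ Option γ →₀ ℕ := ∑ v, d v • del v

/-- the substitution -/
noncomputable def hat (f : MvPolynomial (β ⊕ Option γ) K) : MvPolynomial (β ⊕ Option γ) K :=
  aeval (fun v => monomial (del v) (1 : K)) f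

/-- the degree in the second group -/
def U (d : β ⊕ Option γ →₀ ℕ) : ℕ := ∑ o, d (Sum.inr o)

lemma U_add (d d' : β ⊕ Option γ →₀ ℕ) : U (d + d') = U d + U d' := by
  simp [U, Finset.sum_add_distrib]

lemma U_single (o : Option γ) (k : ℕ) :
    U (Finsupp.single (Sum.inr o) k : β ⊕ Option γ →₀ ℕ) = k := by
  rw [U, Finset.sum_eq_single o]
  · simp
  · intro b _ hb
    rw [Finsupp.single_apply, if_neg]
    exact fun h => hb (Sum.inr_injective h).symm
  · simp

lemma phi_inl (d : β ⊕ Option γ →₀ ℕ) (i : β) : phi d (Sum.inl i) = d (Sum.inl i) := by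
  simp [phi, Finsupp.finsetSum_apply, Fintype.sum_sum_type, Fintype.sum_option, del,
    Finsupp.single_apply]

lemma phi_some (d : β ⊕ Option γ →₀ ℕ) (g : γ) :
    phi d (Sum.inr (some g)) = d (Sum.inr (some g)) := by
  simp [phi, Finsupp.finsetSum_apply, Fintype.sum_sum_type, Fintype.sum_option, del,
    Finsupp.single_apply]

lemma phi_none (d : β ⊕ Option γ →₀ ℕ) :
    phi d (Sum.inr none) = U d := by
  simp [phi, U, Finsupp.finsetSum_apply, Fintype.sum_sum_type, Fintype.sum_option, del,
    Finsupp.single_apply]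

lemma prod_mono {ι : Type*} (s : Finset ι) (m : ι → (β ⊕ Option γ →₀ ℕ)) :
    ∏ i ∈ s, (monomial (m i) (1 : K)) = monomial (∑ i ∈ s, m i) 1 := by
  classical
  induction s using Finset.induction_on with
  | empty => simp
  | insert i s hi ih => rw [Finset.prod_insert hi, ih, Finset.sum_insert hi, monomial_mul, one_mul]

lemma hat_monomial (d : β ⊕ Option γ →₀ ℕ) (a : K) :
    hat (monomial d a) = monomial (phi d) a := by
  classical
  rw [hat, aeval_monomial, Finsupp.prod_fintype _ _ (fun v => pow_zero _)]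
  have h1 : ∏ v, (monomial (del v) (1 : K)) ^ d v = monomial (phi d) 1 := by
    rw [phi, ← prod_mono]
    exact Finset.prod_congr rfl fun v _ => by rw [monomial_pow, one_pow]
  rw [h1]
  simp [algebraMap_eq, C_mul_monomial]

lemma hat_eq (f : MvPolynomial (β ⊕ Option γ) K) :
    hat f = ∑ d ∈ f.support, monomial (phi d) (coeff d f) := by
  conv_lhs => rw [f.as_sum]
  rw [hat, map_sum]
  exact Finset.sum_congr rfl fun d _ => hat_monomial d _

/-- the point of `X` which is given by a point of the blow-up -/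
def zet (z : β ⊕ Option γ → K) : β ⊕ Option γ → K
  | Sum.inl i => z (Sum.inl i)
  | Sum.inr none => z (Sum.inr none)
  | Sum.inr (some g) => z (Sum.inr none) * z (Sum.inr (some g))

lemma eval_hat (f : MvPolynomial (β ⊕ Option γ) K) (z : β ⊕ Option γ → K) :
    eval z (hat f) = eval (zet z) f := by
  rw [hat, Pool.Agent.Y720.MZ.eval_sub]
  congr 2
  funext v
  rcases v with i | o | g
  · simp [del, zet, eval_monomial]
  · simp [del, zet, eval_monomial]
  · rw [del, zet, ← one_mul (1 : K), ← monomial_mul, map_mul]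
    simp [eval_monomial]

lemma sum_int {v : AbsoluteValue K ℝ} (hv : IsNonarchimedean v) {ι : Type*} (s : Finset ι)
    (m : ι → (β ⊕ Option γ →₀ ℕ)) (a : ι → K) (ha : ∀ i ∈ s, v (a i) ≤ 1) (d : β ⊕ Option γ →₀ ℕ) :
    v (coeff d (∑ i ∈ s, monomial (m i) (a i))) ≤ 1 := by
  rw [coeff_sum]
  refine v_sum_le hv _ _ zero_le_one fun i hi => ?_
  rw [coeff_monomial]
  split_ifs
  · exact ha i hi
  · simp

lemma hat_int {v : AbsoluteValue K ℝ} (hv : IsNonarchimedean v) {f : MvPolynomial (β ⊕ Option γ) K}
    (hf : ∀ d, v (coeff d f) ≤ 1) (d : β ⊕ Option γ →₀ ℕ) : v (coeff d (hat f)) ≤ 1 := by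
  rw [hat_eq]
  exact sum_int hv _ _ _ (fun i _ => hf i) d

lemma mem_sum_support {ι : Type*} {s : Finset ι} {m : ι → (β ⊕ Option γ →₀ ℕ)} {a : ι → K}
    {d : β ⊕ Option γ →₀ ℕ} (h : d ∈ (∑ i ∈ s, monomial (m i) (a i)).support) :
    ∃ i ∈ s, d = m i := by
  rw [mem_support_iff, coeff_sum] at h
  obtain ⟨i, hi, h1⟩ := Finset.exists_ne_zero_of_sum_ne_zero h
  rw [coeff_monomial] at h1
  by_cases h2 : m i = d
  · exact ⟨i, hi, h2.symm⟩
  · rw [if_neg h2] at h1
    exact absurd rfl h1

lemma hat_support {f : MvPolynomial (β ⊕ Option γ) K} {d : β ⊕ Option γ →₀ ℕ}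
    (h : d ∈ (hat f).support) : ∃ d' ∈ f.support, d = phi d' := by
  rw [hat_eq] at h
  exact mem_sum_support h

lemma coeff_zero_eval (f : MvPolynomial (β ⊕ Option γ) K) : coeff 0 f = eval 0 f := by
  rw [eval_zero, constantCoeff_eq]

lemma hat_coeff_zero (f : MvPolynomial (β ⊕ Option γ) K) : coeff 0 (hat f) = coeff 0 f := by
  rw [coeff_zero_eval, coeff_zero_eval, eval_hat]
  congr 2
  funext v
  rcases v with i | o | g <;> simp [zet]

lemma hat_coeff_inl (f : MvPolynomial (β ⊕ Option γ) K) (i : β) :
    coeff (Finsupp.single (Sum.inl i) 1) (hat f) = coeff (Finsupp.single (Sum.inl i) 1) f := by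
  rw [← FLG.coeff_single, ← FLG.coeff_single]
  congr 1
  apply Polynomial.funext
  intro t
  rw [rst_eval, rst_eval, eval_hat]
  congr 2
  funext v
  rcases v with j | o | g <;> simp [zet, Pi.single_apply]

/-- the exponents of the equation of the blow-up -/
noncomputable def psi (d : β ⊕ Option γ →₀ ℕ) : β ⊕ Option γ →₀ ℕ :=
  phi d - Finsupp.single (Sum.inr none) 2

lemma psi_add {d : β ⊕ Option γ →₀ ℕ} (h : 2 ≤ U d) :
    psi d + Finsupp.single (Sum.inr none) 2 = phi d := by
  ext v
  rcases v with i | o | g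
  · simp [psi]
  · simp only [psi, Finsupp.coe_add, Finsupp.coe_tsub, Pi.add_apply, Pi.sub_apply, phi_none,
      Finsupp.single_eq_same]
    omega
  · simp [psi]

lemma psi_inl (d : β ⊕ Option γ →₀ ℕ) (i : β) : psi d (Sum.inl i) = d (Sum.inl i) := by
  simp [psi, phi_inl]

lemma psi_some (d : β ⊕ Option γ →₀ ℕ) (g : γ) :
    psi d (Sum.inr (some g)) = d (Sum.inr (some g)) := by
  simp [psi, phi_some]

lemma psi_none (d : β ⊕ Option γ →₀ ℕ) : psi d (Sum.inr none) = U d - 2 := by
  simp [psi, phi_none]

lemma phi_inj {d d' : β ⊕ Option γ →₀ ℕ} (h : phi d = phi d') : d = d' := by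
  have h1 : ∀ i, d (Sum.inl i) = d' (Sum.inl i) := fun i => by
    rw [← phi_inl d, ← phi_inl d', h]
  have h2 : ∀ g, d (Sum.inr (some g)) = d' (Sum.inr (some g)) := fun g => by
    rw [← phi_some d, ← phi_some d', h]
  have h3 : U d = U d' := by rw [← phi_none, ← phi_none, h]
  ext v
  rcases v with i | o | g
  · exact h1 i
  · rw [U, U, Fintype.sum_option, Fintype.sum_option, Finset.sum_congr rfl fun g _ => h2 g] at h3
    omega
  · exact h2 g

lemma psi_inj {d d' : β ⊕ Option γ →₀ ℕ} (h : psi d = psi d') (hd : 2 ≤ U d) (hd' : 2 ≤ U d') :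
    d = d' := by
  apply phi_inj
  rw [← psi_add hd, ← psi_add hd', h]

/-- the exponents of the terms of `f(0, u)` -/
noncomputable def sup (f : MvPolynomial (β ⊕ Option γ) K) : Finset (β ⊕ Option γ →₀ ℕ) :=
  f.support.filter fun d => ∀ i, d (Sum.inl i) = 0

/-- the equation of the blow-up -/
noncomputable def blo (f : MvPolynomial (β ⊕ Option γ) K) : MvPolynomial (β ⊕ Option γ) K :=
  ∑ d ∈ sup f, monomial (psi d) (coeff d f)

/-- its restriction to the exceptional divisor -/
noncomputable def exc (f : MvPolynomial (β ⊕ Option γ) K) : MvPolynomial (β ⊕ Option γ) K :=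
  ∑ d ∈ (sup f).filter (fun d => U d = 2), monomial (psi d) (coeff d f)

lemma mem_sup {f : MvPolynomial (β ⊕ Option γ) K} {d : β ⊕ Option γ →₀ ℕ} :
    d ∈ sup f ↔ coeff d f ≠ 0 ∧ ∀ i, d (Sum.inl i) = 0 := by
  rw [sup, Finset.mem_filter, mem_support_iff]

lemma eval_mono (z : β ⊕ Option γ → K) (d : β ⊕ Option γ →₀ ℕ) (a : K) :
    eval z (monomial d a) = a * ∏ v, z v ^ d v := by
  rw [eval_monomial, Finsupp.prod_fintype _ _ (fun v => pow_zero _)]

/-- the double point -/
lemma eval_blo {f : MvPolynomial (β ⊕ Option γ) K} (hf : ∀ d ∈ sup f, 2 ≤ U d)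
    {z : β ⊕ Option γ → K} (hz : ∀ i, z (Sum.inl i) = 0) :
    eval z (hat f) = z (Sum.inr none) ^ 2 * eval z (blo f) := by
  have h1 : eval z (hat f) = ∑ d ∈ f.support, (if ∀ i, d (Sum.inl i) = 0 then
      z (Sum.inr none) ^ 2 * eval z (monomial (psi d) (coeff d f)) else 0) := by
    rw [hat_eq, map_sum]
    refine Finset.sum_congr rfl fun d hd => ?_
    split_ifs with h
    · have h2 : 2 ≤ U d := hf d (mem_sup.2 ⟨mem_support_iff.1 hd, h⟩)
      rw [← psi_add h2, ← mul_one (coeff d f), ← monomial_mul, map_mul, mul_one]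
      have h3 : eval z (monomial (Finsupp.single (Sum.inr none) 2) (1 : K)) =
          z (Sum.inr none) ^ 2 := by
        simp [eval_monomial]
      rw [h3, mul_comm]
    · push Not at h
      obtain ⟨i, hi⟩ := h
      rw [eval_mono, Finset.prod_eq_zero (Finset.mem_univ (Sum.inl i)), mul_zero]
      rw [hz, phi_inl]
      exact zero_pow hi
  rw [h1, ← Finset.sum_filter, blo, map_sum, Finset.mul_sum]
  rfl

lemma eval_exc {f : MvPolynomial (β ⊕ Option γ) K} (hf : ∀ d ∈ sup f, 2 ≤ U d)
    {z : β ⊕ Option γ → K} (hz : z (Sum.inr none) = 0) :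
    eval z (blo f) = eval z (exc f) := by
  rw [blo, exc, map_sum, map_sum, Finset.sum_filter]
  refine Finset.sum_congr rfl fun d hd => ?_
  split_ifs with h
  · rfl
  · have h2 := hf d hd
    rw [eval_mono, Finset.prod_eq_zero (Finset.mem_univ (Sum.inr none)), mul_zero]
    rw [hz, psi_none]
    exact zero_pow (by omega)

lemma coeff_blo {f : MvPolynomial (β ⊕ Option γ) K} (hf : ∀ d ∈ sup f, 2 ≤ U d)
    {d : β ⊕ Option γ →₀ ℕ} (hd : ∀ i, d (Sum.inl i) = 0) (h2 : 2 ≤ U d) :
    coeff (psi d) (blo f) = coeff d f := by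
  rw [blo, coeff_sum]
  by_cases h : d ∈ sup f
  · rw [Finset.sum_eq_single d]
    · rw [coeff_monomial, if_pos rfl]
    · intro e he hed
      rw [coeff_monomial, if_neg]
      exact fun h3 => hed (psi_inj h3 (hf e he) h2)
    · exact fun h3 => absurd h h3
  · have h3 : coeff d f = 0 := by
      by_contra h4
      exact h (mem_sup.2 ⟨h4, hd⟩)
    rw [h3]
    refine Finset.sum_eq_zero fun e he => ?_
    rw [coeff_monomial, if_neg]
    exact fun h4 => h (psi_inj h4 (hf e he) h2 ▸ he)

lemma coeff_exc {f : MvPolynomial (β ⊕ Option γ) K} (hf : ∀ d ∈ sup f, 2 ≤ U d)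
    {d : β ⊕ Option γ →₀ ℕ} (hd : ∀ i, d (Sum.inl i) = 0) (h2 : U d = 2) :
    coeff (psi d) (exc f) = coeff d f := by
  rw [exc, coeff_sum]
  by_cases h : d ∈ sup f
  · rw [Finset.sum_eq_single d]
    · rw [coeff_monomial, if_pos rfl]
    · intro e he hed
      rw [Finset.mem_filter] at he
      rw [coeff_monomial, if_neg]
      exact fun h3 => hed (psi_inj h3 (hf e he.1) h2.ge)
    · exact fun h3 => absurd (Finset.mem_filter.2 ⟨h, h2⟩) h3
  · have h3 : coeff d f = 0 := by
      by_contra h4
      exact h (mem_sup.2 ⟨h4, hd⟩)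
    rw [h3]
    refine Finset.sum_eq_zero fun e he => ?_
    rw [Finset.mem_filter] at he
    rw [coeff_monomial, if_neg]
    exact fun h4 => h (psi_inj h4 (hf e he.1) h2.ge ▸ he.1)

/-- the value on a line of the exceptional divisor -/
lemma eval_line {f : MvPolynomial (β ⊕ Option γ) K} (hf : ∀ d ∈ sup f, 2 ≤ U d)
    (hf2 : coeff (Finsupp.single (Sum.inr none) 2) f = 0) (g : γ) (t : K) :
    eval (t • Pi.single (Sum.inr (some g)) (1 : K)) (blo f) =
      coeff (Finsupp.single (Sum.inr none) 1 + Finsupp.single (Sum.inr (some g)) 1) f * t +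
      coeff (Finsupp.single (Sum.inr (some g)) 2) f * t ^ 2 := by
  classical
  set z : β ⊕ Option γ → K := t • Pi.single (Sum.inr (some g)) (1 : K) with hz
  have hzn : z (Sum.inr none) = 0 := by simp [hz]
  have hzg : z (Sum.inr (some g)) = t := by simp [hz]
  have hzo : ∀ v, v ≠ Sum.inr (some g) → z v = 0 := by
    intro v hv
    simp [hz, Pi.single_apply, hv]
  obtain ⟨d1, hd1⟩ : ∃ d1 : β ⊕ Option γ →₀ ℕ, d1 = Finsupp.single (Sum.inr none) 1 +
    Finsupp.single (Sum.inr (some g)) 1 := ⟨_, rfl⟩
  obtain ⟨d2, hd2⟩ : ∃ d2 : β ⊕ Option γ →₀ ℕ, d2 = Finsupp.single (Sum.inr (some g)) 2 :=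
    ⟨_, rfl⟩
  have h12 : d1 ≠ d2 := by
    intro h
    have := DFunLike.congr_fun h (Sum.inr none)
    simp [hd1, hd2] at this
  have e1 : ∏ v, z v ^ psi d1 v = t := by
    have h1 : psi d1 = Finsupp.single (Sum.inr (some g)) 1 := by
      ext v
      rcases v with i | o | g'
      · simp [psi_inl, hd1]
      · simp [psi_none, hd1, U_add, U_single]
      · simp [psi_some, hd1]
    rw [h1, Finset.prod_eq_single (Sum.inr (some g))]
    · simp [hzg]
    · intro v _ hv
      rw [Finsupp.single_apply, if_neg (Ne.symm hv), pow_zero]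
    · simp
  have e2 : ∏ v, z v ^ psi d2 v = t ^ 2 := by
    have h1 : psi d2 = Finsupp.single (Sum.inr (some g)) 2 := by
      ext v
      rcases v with i | o | g'
      · simp [psi_inl, hd2]
      · simp [psi_none, hd2, U_single]
      · simp [psi_some, hd2]
    rw [h1, Finset.prod_eq_single (Sum.inr (some g))]
    · simp [hzg]
    · intro v _ hv
      rw [Finsupp.single_apply, if_neg (Ne.symm hv), pow_zero]
    · simp
  have hsum : ∑ d ∈ sup f, coeff d f * ∏ v, z v ^ psi d v =
      ∑ d ∈ {d1, d2}, coeff d f * ∏ v, z v ^ psi d v := by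
    have hA : ∑ d ∈ sup f, coeff d f * ∏ v, z v ^ psi d v =
        ∑ d ∈ sup f ∪ {d1, d2}, coeff d f * ∏ v, z v ^ psi d v := by
      refine Finset.sum_subset Finset.subset_union_left fun d hd hd' => ?_
      have h1 : d = d1 ∨ d = d2 := by
        rcases Finset.mem_union.1 hd with h | h
        · exact absurd h hd'
        · simpa using h
      have h2 : ∀ i, d (Sum.inl i) = 0 := by
        intro i
        rcases h1 with rfl | rfl
        · simp [hd1]
        · simp [hd2]
      have h3 : coeff d f = 0 := by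
        by_contra h4
        exact hd' (mem_sup.2 ⟨h4, h2⟩)
      rw [h3, zero_mul]
    rw [hA]
    symm
    refine Finset.sum_subset Finset.subset_union_right fun d hd hd' => ?_
    have hds : d ∈ sup f := by
      rcases Finset.mem_union.1 hd with h | h
      · exact h
      · exact absurd h hd'
    by_contra hne
    have hc := left_ne_zero_of_mul hne
    have hp := right_ne_zero_of_mul hne
    have hv : ∀ v, v ≠ Sum.inr (some g) → psi d v = 0 := by
      intro v hv
      by_contra h4
      apply hp
      refine Finset.prod_eq_zero (Finset.mem_univ v) ?_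
      rw [hzo v hv]
      exact zero_pow h4
    have h5 : ∀ g', g' ≠ g → d (Sum.inr (some g')) = 0 := by
      intro g' hg'
      rw [← psi_some]
      exact hv _ (by simpa using hg')
    have h6 : U d = 2 := by
      have h7 := hv (Sum.inr none) (by simp)
      rw [psi_none] at h7
      have := hf d hds
      omega
    have h8 : d (Sum.inr none) + d (Sum.inr (some g)) = 2 := by
      rw [U, Fintype.sum_option, Finset.sum_eq_single g] at h6
      · exact h6
      · exact fun g' _ hg' => h5 g' hg'
      · simp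
    have h9 : ∀ i, d (Sum.inl i) = 0 := (mem_sup.1 hds).2
    rcases Nat.lt_or_ge (d (Sum.inr (some g))) 1 with h10 | h10
    · apply hc
      have : d = Finsupp.single (Sum.inr none) 2 := by
        ext v
        rcases v with i | o | g'
        · simp [h9]
        · simp
          omega
        · by_cases hg' : g' = g
          · subst hg'
            simp
            omega
          · simp [h5 g' hg']
      rw [this, hf2]
    · apply hd'
      rcases Nat.lt_or_ge (d (Sum.inr (some g))) 2 with h11 | h11
      · have : d = d1 := by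
          ext v
          rcases v with i | o | g'
          · simp [h9, hd1]
          · simp [hd1]
            omega
          · by_cases hg' : g' = g
            · subst hg'
              simp [hd1]
              omega
            · simp [h5 g' hg', hd1, Ne.symm hg']
        simp [this]
      · have : d = d2 := by
          ext v
          rcases v with i | o | g'
          · simp [h9, hd2]
          · simp [hd2]
            omega
          · by_cases hg' : g' = g
            · subst hg'
              simp [hd2]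
              omega
            · simp [h5 g' hg', hd2, Ne.symm hg']
        simp [this]
  rw [blo, map_sum, Finset.sum_congr rfl fun d _ => eval_mono z (psi d) (coeff d f), hsum,
    Finset.sum_pair h12, e1, e2, hd1, hd2]

end Pool.Agent.K9h33.NOD
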