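import Pool.Agent.K9h33.NOD.Pt

/-!
Double covers branched over a hypersurface with a double point in a fibre: one point suffices.
-/

set_option autoImplicit false
set_option linter.unusedSectionVars false
set_option linter.unusedVariables false
set_option linter.unusedSimpArgs false

open MvPolynomial NumberField Filter Topology

namespace Pool.Agent.K9h33.NOD

open Pool.Agent.K9h33.FLG Pool.Agent.Y720.MZ

lemma v_int {L : Type*} [Field L] [NumberField L] {v : AbsoluteValue L ℝ} (hv : IsNonarchimedean v)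
    (x : 𝓞 L) : v (x : L) ≤ 1 := by
  obtain ⟨P, hPm, hP⟩ := x.isIntegral_coe
  by_contra hcon
  push Not at hcon
  have h1 : (x : L) ^ P.natDegree = -∑ k ∈ Finset.range P.natDegree,
      ((P.coeff k : ℤ) : L) * (x : L) ^ k := by
    rw [Polynomial.eval₂_eq_sum_range, Finset.sum_range_succ, hPm.coeff_natDegree] at hP
    simp only [map_one, one_mul, eq_intCast] at hP
    linear_combination hP
  have hx0 : 0 < v (x : L) := zero_lt_one.trans hcon
  have h2 : v (∑ k ∈ Finset.range P.natDegree, ((P.coeff k : ℤ) : L) * (x : L) ^ k) ≤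
      v (x : L) ^ (P.natDegree - 1) := by
    refine v_sum_le hv _ _ (by positivity) fun k hk => ?_
    rw [map_mul, map_pow]
    have h3 : v ((P.coeff k : ℤ) : L) ≤ 1 := by
      obtain ⟨a, h4 | h4⟩ := (P.coeff k).eq_nat_or_neg
      · rw [h4]; simpa using na_nat hv a
      · rw [h4, Int.cast_neg, v.map_neg]; simpa using na_nat hv a
    calc v ((P.coeff k : ℤ) : L) * v (x : L) ^ k ≤ 1 * v (x : L) ^ (P.natDegree - 1) := by
          refine mul_le_mul h3 (pow_le_pow_right₀ hcon.le ?_) (by positivity) zero_le_one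
          have := Finset.mem_range.1 hk
          omega
      _ = _ := one_mul _
  have hdeg : P.natDegree ≠ 0 := by
    intro h3
    rw [h3] at h1
    simp at h1
  have h3 : v (x : L) ^ P.natDegree ≤ v (x : L) ^ (P.natDegree - 1) := by
    rw [← map_pow, h1, v.map_neg]
    exact h2
  have h4 : P.natDegree = P.natDegree - 1 + 1 := by omega
  rw [h4, pow_succ] at h3
  have h5 : 0 < v (x : L) ^ (P.natDegree - 1) := by positivity
  simp only [add_tsub_cancel_right] at h3
  nlinarith

/-- **One point suffices.** -/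
theorem node_point (K : Type) [Field K] [NumberField K] {β γ : Type} [Fintype β] [Fintype γ]
    [DecidableEq β] [DecidableEq γ] (c : β → ℕ) (f : MvPolynomial (β ⊕ Option γ) K)
    (hf : Node c f) (g : γ)
    (hg : coeff (Finsupp.single (Sum.inr none) 1 + Finsupp.single (Sum.inr (some g)) 1) f ≠ 0) :
    ∃ N : ℕ, ∀ p : ℕ, p.Prime → N < p → ∀ (L : Type) [Field L] [NumberField L] [Algebra K L]
      (t : 𝓞 L), (p : 𝓞 L) ^ 3 ∣ t → ∀ s : L, s ≠ 0 →
        s ^ 2 = algebraMap K L (coeff (Finsupp.single (Sum.inr none) 1 +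
            Finsupp.single (Sum.inr (some g)) 1) f) * t +
          algebraMap K L (coeff (Finsupp.single (Sum.inr (some g)) 2) f) * t ^ 2 →
        Dense K f L := by
  classical
  have h0 := hf.zero
  choose h q hhq hdeg using hf.lev
  obtain ⟨m, hm⟩ : ∃ m, ∀ i, c i < m :=
    ⟨(∑ i, c i) + 1, fun i => Nat.lt_succ_of_le (Finset.single_le_sum (fun i _ => Nat.zero_le _)
      (Finset.mem_univ i))⟩
  let cf : MvPolynomial (β ⊕ Option γ) K → Finset K := fun g => g.support.image g.coeff
  obtain ⟨N, hN⟩ := exists_pl K (cf f ∪ (Finset.range m).biUnion fun j => cf (h j) ∪ cf (q j))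
  refine ⟨N + 3, fun p hp hpN L _ _ _ t htp s hs0 hs => ?_⟩
  obtain ⟨v, hv, hpk, hvp, hle, hun⟩ := hN p hp (by omega) L (algebraMap K L)
  have hp3 : 3 ≤ p := by omega
  have hcf : ∀ g : MvPolynomial (β ⊕ Option γ) K, (∀ x ∈ cf g, x ∈ cf f ∪ (Finset.range m).biUnion
      fun j => cf (h j) ∪ cf (q j)) → ∀ d, v ((MvPolynomial.map (algebraMap K L) g).coeff d) ≤ 1 := by
    intro g hg d
    rw [MvPolynomial.coeff_map]
    by_cases hd : g.coeff d = 0
    · rw [hd]; simp
    · exact hle _ (hg _ (Finset.mem_image_of_mem _ (MvPolynomial.mem_support_iff.2 hd)))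
  have hcu : ∀ g : MvPolynomial (β ⊕ Option γ) K, (∀ x ∈ cf g, x ∈ cf f ∪ (Finset.range m).biUnion
      fun j => cf (h j) ∪ cf (q j)) → ∀ d, g.coeff d ≠ 0 →
      v ((MvPolynomial.map (algebraMap K L) g).coeff d) = 1 := by
    intro g hg d hd
    rw [MvPolynomial.coeff_map]
    exact hun _ (hg _ (Finset.mem_image_of_mem _ (MvPolynomial.mem_support_iff.2 hd))) hd
  have hSf : ∀ x ∈ cf f, x ∈ cf f ∪ (Finset.range m).biUnion fun j => cf (h j) ∪ cf (q j) :=
    fun x hx => Finset.mem_union_left _ hx
  have hSh : ∀ j, j < m → ∀ x ∈ cf (h j), x ∈ cf f ∪ (Finset.range m).biUnion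
      fun j => cf (h j) ∪ cf (q j) := fun j hj x hx => Finset.mem_union_right _
    (Finset.mem_biUnion.2 ⟨j, Finset.mem_range.2 hj, Finset.mem_union_left _ hx⟩)
  have hSq : ∀ j, j < m → ∀ x ∈ cf (q j), x ∈ cf f ∪ (Finset.range m).biUnion
      fun j => cf (h j) ∪ cf (q j) := fun j hj x hx => Finset.mem_union_right _
    (Finset.mem_biUnion.2 ⟨j, Finset.mem_range.2 hj, Finset.mem_union_right _ hx⟩)
  -- the completion
  have hpL : ((p : ℕ) : L) ≠ 0 := Nat.cast_ne_zero.2 hp.ne_zero
  obtain ⟨E, _, _, σ, hσ, hσv⟩ := exists_completion v ⟨(p : L), hpL, hvp.ne⟩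
  have : ProperSpace E := Pool.Agent.W279.Tri.properSpace_of_denseRange σ hσ
  have hvt3 : v (t : L) ≤ v (p : L) ^ 3 := by
    obtain ⟨u, hu⟩ := htp
    have h1 : (t : L) = (p : L) ^ 3 * (u : L) := by
      rw [hu]; simp
    rw [h1, map_mul, map_pow]
    calc v (p : L) ^ 3 * v (u : L) ≤ v (p : L) ^ 3 * 1 :=
          mul_le_mul_of_nonneg_left (v_int hv u) (pow_nonneg (v.nonneg _) _)
      _ = _ := mul_one _
  -- the equations over `L`
  set f' := MvPolynomial.map (algebraMap K L) f with hf'
  have hco : ∀ d, coeff d f' = algebraMap K L (coeff d f) := fun d => by rw [hf', coeff_map]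
  have hco0 : ∀ d, coeff d f' ≠ 0 → coeff d f ≠ 0 := fun d hd h1 => hd (by rw [hco, h1, map_zero])
  have hsup : ∀ d ∈ sup f', d ∈ sup f := fun d hd => by
    rw [mem_sup] at hd ⊢
    exact ⟨hco0 d hd.1, hd.2⟩
  have htwo : ∀ d ∈ sup f', 2 ≤ U d := fun d hd => hf.two d (hsup d hd)
  have hsix : ∀ d ∈ sup f', U d ≤ 6 := fun d hd => hf.six d (hsup d hd)
  have hf'0 : coeff 0 f' = 0 := by rw [hco, h0, map_zero]
  have hf'2 : coeff (Finsupp.single (Sum.inr none) 2) f' = 0 := by rw [hco, hf.sq, map_zero]
  have hint' : ∀ d, v (coeff d f') ≤ 1 := hcf f hSf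
  have hQint : ∀ d, v (coeff d (blo f')) ≤ 1 := fun d => sum_int hv _ _ _ (fun i _ => hint' i) d
  -- some exponents
  obtain ⟨dm, hdm⟩ : ∃ dm : β ⊕ Option γ →₀ ℕ, dm = Finsupp.single (Sum.inr none) 1 +
    Finsupp.single (Sum.inr (some g)) 1 := ⟨_, rfl⟩
  have hUm : U dm = 2 := by rw [hdm, U_add, U_single, U_single]
  have hpm : psi dm = Finsupp.single (Sum.inr (some g)) 1 := by
    ext v
    rcases v with i | o | g'
    · simp [psi_inl, hdm]
    · simp [psi_none, hUm]
    · simp [psi_some, hdm]
  have hcm : coeff (Finsupp.single (Sum.inr (some g)) 1) (blo f') = coeff dm f' := by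
    rw [← hpm, coeff_blo htwo (fun i => by simp [hdm]) hUm.ge]
  obtain ⟨dc, hdc⟩ : ∃ dc : β ⊕ Option γ →₀ ℕ, dc = Finsupp.single (Sum.inr none) 3 := ⟨_, rfl⟩
  have hUc : U dc = 3 := by rw [hdc, U_single]
  have hpc : psi dc = Finsupp.single (Sum.inr none) 1 := by
    ext v
    rcases v with i | o | g'
    · simp [psi_inl, hdc]
    · simp [psi_none, hUc]
    · simp [psi_some, hdc]
  have hcc : coeff (Finsupp.single (Sum.inr none) 1) (blo f') = coeff dc f' := by
    rw [← hpc, coeff_blo htwo (fun i => by simp [hdc]) (by omega)]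
  obtain ⟨ds, hds⟩ : ∃ ds : β ⊕ Option γ →₀ ℕ, ds = Finsupp.single (Sum.inr none) 2 := ⟨_, rfl⟩
  have hUs : U ds = 2 := by rw [hds, U_single]
  have hps : psi ds = 0 := by
    ext v
    rcases v with i | o | g'
    · simp [psi_inl, hds]
    · simp [psi_none, hUs]
    · simp [psi_some, hds]
  have hQ0 : coeff 0 (blo f') = 0 := by
    rw [← hps, coeff_blo htwo (fun i => by simp [hds]) hUs.ge, hds, hf'2]
  -- the base point
  set z0 : β ⊕ Option γ → L := (t : L) • Pi.single (Sum.inr (some g)) (1 : L) with hz0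
  have hw0 : s ^ 2 = eval z0 (blo f') := by
    rw [hz0, eval_line htwo hf'2, hs, hco, hco]
  have hvt0 : 0 < v ((p : L)) := v.pos hpL
  have hvt : v (t : L) < 1 := by
    refine hvt3.trans_lt ?_
    exact pow_lt_one₀ (v.nonneg _) hvp (by norm_num)
  have ht0 : (t : L) ≠ 0 := by
    intro h1
    rw [h1] at hs
    apply hs0
    have : s ^ 2 = 0 := by rw [hs]; ring
    exact pow_eq_zero_iff two_ne_zero |>.1 this
  have hval : v (eval z0 (blo f')) = v (t : L) := by
    rw [hz0]
    refine val_first hv hQint hQ0 (fun i => ?_) ?_ ht0 hvt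
    · rw [Pi.single_apply]
      split_ifs <;> simp
    · rw [lin_single, hcm, hdm]
      exact hcu f hSf _ hg
  have hvs : v s ^ 2 = v (t : L) := by
    rw [← map_pow, hw0, hval]
  have hvs1 : v s < v (p : L) := by
    refine lt_of_pow_lt_pow_left₀ 2 (v.nonneg _) ?_
    rw [hvs]
    nlinarith [pow_pos hvt0 2]
  have hzz : ∀ i, 0 < lev c i → z0 i = 0 := by
    intro i hi
    rw [hz0, Pi.smul_apply, Pi.single_apply, if_neg, smul_zero]
    rintro rfl
    simp [lev] at hi
  have hz1 : ∀ i, v (z0 i) < 1 := by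
    intro i
    rw [hz0, Pi.smul_apply, Pi.single_apply, smul_eq_mul]
    split_ifs
    · rw [mul_one]
      exact hvt
    · simp
  -- the exceptional divisor and the blow-up
  have hone : ∀ d, v (coeff d (1 : MvPolynomial (β ⊕ Option γ) L)) ≤ 1 := by
    intro d
    rw [coeff_one]
    split_ifs <;> simp
  have hL0 : Lev v (lev c) (blo f') 0 := by
    refine ⟨1, exc f', hone, fun d => sum_int hv _ _ _ (fun i _ => hint' i) d, fun z hz => ?_,
      Or.inl fun d hd => ?_⟩
    · rw [map_one, one_pow, one_mul]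
      exact eval_exc htwo (hz _ (by simp [lev]))
    · obtain ⟨d', hd', rfl⟩ := mem_sum_support hd
      rw [Finset.mem_filter] at hd'
      rw [sum_lev_zero]
      have h1 := hd'.2
      rw [U, Fintype.sum_option] at h1
      calc ∑ g : γ, psi d' (Sum.inr (some g)) = ∑ g : γ, d' (Sum.inr (some g)) :=
            Finset.sum_congr rfl fun g _ => psi_some d' g
        _ ≤ 2 := by omega
  have hL1 : Lev v (lev c) (blo f') 1 := by
    refine ⟨1, blo f', hone, hQint, fun z hz => by simp, Or.inr ⟨fun d hd => ?_, ?_,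
      Sum.inr none, rfl, ?_⟩⟩
    · obtain ⟨d', hd', rfl⟩ := mem_sum_support hd
      rw [sum_lev_one, psi_none]
      have := hsix d' hd'
      omega
    · simp
    · rw [hcc, hdc]
      exact hcu f hSf _ hf.cube
  have hD2 : Dj v p (lev c) (blo f') z0 2 := by
    have h1 := dj_up σ hσ hσv hv hp3 hpk hvp hzz (dj_zero (c := lev c) hz1 hs0 hvs1 hw0) 2
      (fun j _ hj => by
        have : j = 0 ∨ j = 1 := by omega
        rcases this with rfl | rfl
        · exact hL0
        · exact hL1)
    exact h1
  -- the fibre of `X`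
  have hF2 : Dj v p (lev c) (hat f') z0 2 := by
    refine dj_transfer (s := Sum.inr none) (by omega) hvp (by simp [lev])
      (fun i hi => hzz i (by omega)) (fun z hz => ?_) hD2
    exact eval_blo htwo fun i => hz _ (by simp [lev])
  -- the other levels
  have hLev : ∀ j, j < m → Lev v (lev c) (hat f') (2 + j) := by
    intro j hj
    refine ⟨hat (MvPolynomial.map (algebraMap K L) (h j)),
      hat (MvPolynomial.map (algebraMap K L) (q j)), hat_int hv (hcf _ (hSh j hj)),
      hat_int hv (hcf _ (hSq j hj)), fun z hz => ?_, ?_⟩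
    · rw [eval_hat, eval_hat, eval_hat, ← map_pow, ← map_mul, ← map_pow, ← map_mul, ← hhq,
        ← rest_map, rest_eval]
      intro i hi
      exact hz (Sum.inl i) (by simp only [lev]; omega)
    · have hsupp : ∀ d ∈ (hat (MvPolynomial.map (algebraMap K L) (q j))).support,
          ∃ d' ∈ (q j).support, d = phi d' := fun d hd => by
        obtain ⟨d', hd', h1⟩ := hat_support hd
        exact ⟨d', MvPolynomial.support_map_subset _ _ hd', h1⟩
      have hsum : ∀ d' : β ⊕ Option γ →₀ ℕ, ∑ i with lev c i = 2 + j, phi d' i =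
          ∑ i with c i = j, d' (Sum.inl i) := fun d' => by
        rw [add_comm, sum_lev_two]
        exact Finset.sum_congr rfl fun i _ => phi_inl d' i
      rcases hdeg j with h2 | ⟨h4, i, hi, hfi⟩
      · refine Or.inl fun d hd => ?_
        obtain ⟨d', hd', rfl⟩ := hsupp d hd
        rw [hsum]
        exact h2 d' hd'
      · obtain ⟨h5, h6⟩ := node_units h0 (hhq j) hi hfi
        refine Or.inr ⟨fun d hd => ?_, ?_, Sum.inl i, by simp [lev, hi, add_comm], ?_⟩
        · obtain ⟨d', hd', rfl⟩ := hsupp d hd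
          rw [hsum]
          exact h4 d' hd'
        · rw [hat_coeff_zero]
          exact hcu _ (hSh j hj) _ h5
        · rw [hat_coeff_inl]
          exact hcu _ (hSq j hj) _ h6
  have hFm : Dj v p (lev c) (hat f') z0 (2 + m) :=
    dj_up σ hσ hσv hv hp3 hpk hvp hzz hF2 m fun j h1 h2 => by
      obtain ⟨k, rfl⟩ := Nat.exists_eq_add_of_le h1
      exact hLev k (by omega)
  -- density
  intro G hG
  refine cover (not_square3 (v := Sum.inr none) ?_ ?_) (fun g' hg' => ?_) hG
  · intro k hk
    by_cases h2 : k = 2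
    · rw [h2]
      exact hf'2
    · by_contra hne
      have h3 : (Finsupp.single (Sum.inr none) k : β ⊕ Option γ →₀ ℕ) ∈ sup f' :=
        mem_sup.2 ⟨hne, fun i => by simp⟩
      have h4 := htwo _ h3
      rw [U_single] at h4
      omega
  · rw [hco]
    exact (map_ne_zero _).2 hf.cube
  · have h1 : hat g' = 0 := by
      apply MvPolynomial.funext
      intro z
      rw [map_zero]
      refine hFm (hat g') (fun x hx => ?_) z fun i hi => ?_
      · obtain ⟨-, -, w, hw0, -, hw⟩ := hx
        rw [eval_hat]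
        rw [eval_hat] at hw
        exact hg' _ w hw0 hw
      · exfalso
        rcases i with i | o | g
        · have := hm i
          simp only [lev] at hi
          omega
        · simp only [lev] at hi
          omega
        · simp only [lev] at hi
          omega
    have h2 : X (Sum.inr none) * g' = 0 := by
      apply MvPolynomial.funext
      intro x
      rw [map_mul, eval_X, map_zero]
      by_cases hx : x (Sum.inr none) = 0
      · rw [hx, zero_mul]
      · have h3 := congrArg (eval (Sum.elim (fun i => x (Sum.inl i)) fun o =>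
          o.elim (x (Sum.inr none)) fun g => x (Sum.inr (some g)) / x (Sum.inr none) :
            β ⊕ Option γ → L)) h1
        rw [eval_hat, map_zero] at h3
        have h4 : zet (Sum.elim (fun i => x (Sum.inl i)) fun o =>
            o.elim (x (Sum.inr none)) fun g => x (Sum.inr (some g)) / x (Sum.inr none) :
              β ⊕ Option γ → L) = x := by
          funext v
          rcases v with i | o | g
          · rfl
          · rfl
          · simp only [zet, Sum.elim_inr, Option.elim_none, Option.elim_some]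
            field_simp
        rw [h4] at h3
        rw [h3, mul_zero]
    exact (mul_eq_zero.1 h2).resolve_left (X_ne_zero _)

end Pool.Agent.K9h33.NOD
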