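import Pool.Agent.K9h33.NOD.Hat

/-!
Double covers branched over a hypersurface with a double point in a fibre.
-/

set_option autoImplicit false
set_option linter.unusedSectionVars false
set_option linter.unusedVariables false
set_option linter.unusedSimpArgs false

open MvPolynomial NumberField

namespace Pool.Agent.K9h33.NOD

open Pool.Agent.K9h33.FLG Pool.Agent.Y720.MZ

section

variable {K : Type*} [Field K] {β γ : Type*}

/-- the polynomial obtained from `f(y, u)` by setting the `y`-variables of level above `j` to zero -/
noncomputable def rest (c : β → ℕ) (j : ℕ) (f : MvPolynomial (β ⊕ Option γ) K) :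
    MvPolynomial (β ⊕ Option γ) K :=
  aeval (Sum.elim (fun i => if c i ≤ j then X (Sum.inl i) else 0) fun o => X (Sum.inr o)) f

/-- the levels on the blow-up -/
def lev (c : β → ℕ) : β ⊕ Option γ → ℕ
  | Sum.inl i => c i + 2
  | Sum.inr none => 1
  | Sum.inr (some _) => 0

lemma rest_eval (c : β → ℕ) (j : ℕ) (f : MvPolynomial (β ⊕ Option γ) K) (z : β ⊕ Option γ → K)
    (hz : ∀ i, j < c i → z (Sum.inl i) = 0) : eval z (rest c j f) = eval z f := by
  rw [rest, Pool.Agent.Y720.MZ.eval_sub]
  congr 2
  funext v
  rcases v with i | o
  · by_cases h : c i ≤ j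
    · simp [h]
    · simp [h, hz i (by omega)]
  · simp

lemma rest_map {L : Type*} [Field L] (ι : K →+* L) (c : β → ℕ) (j : ℕ)
    (f : MvPolynomial (β ⊕ Option γ) K) : rest c j (map ι f) = map ι (rest c j f) := by
  induction f using MvPolynomial.induction_on with
  | C a => simp [rest]
  | add p q hp hq => simp only [rest, map_add] at *; rw [hp, hq]
  | mul_X p i hp =>
    simp only [rest, map_mul, MvPolynomial.map_X, MvPolynomial.aeval_X] at *
    rw [hp]
    congr 1
    rcases i with i | o
    · simp only [Sum.elim_inl]
      split_ifs <;> simp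
    · simp

variable [CharZero K] [Fintype β] [Fintype γ] [DecidableEq β] [DecidableEq γ]

/-- the coefficients of the restriction to an axis -/
lemma rst_axis {α : Type*} [Fintype α] [DecidableEq α] (f : MvPolynomial α K) (v : α) (k : ℕ) :
    (rst f 0 (Pi.single v 1)).coeff k = coeff (Finsupp.single v k) f := by
  classical
  have h1 : ∀ (d : α →₀ ℕ) (a : K), (rst (monomial d a) 0 (Pi.single v 1)).coeff k =
      if d = Finsupp.single v k then a else 0 := by
    intro d a
    rw [rst, aeval_monomial, Finsupp.prod_fintype _ _ (fun v => pow_zero _)]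
    by_cases h : ∀ i, i ≠ v → d i = 0
    · have h2 : d = Finsupp.single v (d v) := by
        ext i
        by_cases hi : i = v
        · subst hi; simp
        · rw [h i hi, Finsupp.single_apply, if_neg (Ne.symm hi)]
      rw [Finset.prod_eq_single v]
      · simp only [Pi.zero_apply, map_zero, zero_add, Pi.single_eq_same, map_one, one_mul,
          Polynomial.algebraMap_apply, Algebra.algebraMap_self, RingHom.id_apply,
          Polynomial.coeff_C_mul, Polynomial.coeff_X_pow]
        by_cases hk : k = d v
        · subst hk
          rw [if_pos rfl, mul_one, if_pos h2]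
        · rw [if_neg hk, mul_zero, if_neg]
          intro h3
          apply hk
          rw [h3]
          simp
      · intro i _ hi
        rw [h i hi, pow_zero]
      · simp
    · push Not at h
      obtain ⟨i, hi, hd⟩ := h
      rw [Finset.prod_eq_zero (Finset.mem_univ i), mul_zero, Polynomial.coeff_zero, if_neg]
      · rintro rfl
        apply hd
        rw [Finsupp.single_apply, if_neg (Ne.symm hi)]
      · simp only [Pi.zero_apply, map_zero, zero_add, Pi.single_apply, if_neg hi, zero_mul]
        exact zero_pow hd
  conv_lhs => rw [f.as_sum]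
  have h2 : rst (∑ d ∈ f.support, monomial d (coeff d f)) 0 (Pi.single v 1) =
      ∑ d ∈ f.support, rst (monomial d (coeff d f)) 0 (Pi.single v 1) := by
    simp only [rst, map_sum]
  rw [h2, Polynomial.finsetSum_coeff, Finset.sum_congr rfl fun d _ => h1 d _]
  rw [Finset.sum_ite_eq' f.support]
  split_ifs with h
  · rfl
  · exact (notMem_support_iff.1 h).symm

/-- the lowest term on an axis has degree three -/
lemma not_square3 {α : Type*} [Fintype α] [DecidableEq α] {f : MvPolynomial α K} {v : α}
    (h : ∀ k, k < 3 → coeff (Finsupp.single v k) f = 0) (h3 : coeff (Finsupp.single v 3) f ≠ 0) :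
    ¬IsSquare f := by
  rintro ⟨g, rfl⟩
  set P := rst g 0 (Pi.single v 1) with hP
  have h1 : ∀ k, coeff (Finsupp.single v k) (g * g) = (P * P).coeff k := by
    intro k
    rw [← rst_axis, rst_mul]
  have e0 := h 0 (by norm_num)
  have e2 := h 2 (by norm_num)
  rw [h1] at e0 e2 h3
  simp only [Polynomial.mul_coeff_zero] at e0
  have hp0 : P.coeff 0 = 0 := mul_self_eq_zero.1 e0
  rw [Polynomial.coeff_mul, Finset.Nat.sum_antidiagonal_eq_sum_range_succ_mk] at e2 h3
  simp only [Finset.sum_range_succ, Finset.sum_range_zero, hp0] at e2 h3
  norm_num [hp0] at e2 h3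
  have hp1 : P.coeff 1 = 0 := by simpa using e2
  simp [hp1] at h3

end

end Pool.Agent.K9h33.NOD
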