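import Pool.Agent.K9h33.NOD.Node

/-!
Density of the rational points of double covers branched over a hypersurface with a double point in a
fibre.
-/

set_option autoImplicit false
set_option linter.unusedSectionVars false
set_option linter.unusedVariables false
set_option linter.unusedSimpArgs false

open MvPolynomial NumberField Filter Topology

namespace Pool.Agent.K9h33.NOD

open Pool.Agent.K9h33.FLG Pool.Agent.Y720.MZ

section dens

variable {K : Type*} [Field K] [NumberField K] {L : Type*} [NontriviallyNormedField L]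
  [CompleteSpace L] [ProperSpace L] {α : Type*} [Fintype α]

/-- going up through the levels -/
theorem dj_up (σ : K →+* L) (hσ : DenseRange σ) {v : AbsoluteValue K ℝ} (hσv : ∀ x, ‖σ x‖ = v x)
    (hv : IsNonarchimedean v) {p : ℕ} (hp3 : 3 ≤ p)
    (hpk : ∀ k : ℕ, 1 ≤ k → k < p → v (k : K) = 1) (hp1 : v (p : K) < 1)
    {c : α → ℕ} {f : MvPolynomial α K} {z0 : α → K} (hz0 : ∀ i, 0 < c i → z0 i = 0) {a : ℕ}
    (ha : Dj v p c f z0 a) : ∀ k, (∀ j, a ≤ j → j < a + k → Lev v c f j) →
      Dj v p c f z0 (a + k) := by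
  intro k
  induction k with
  | zero => exact fun _ => ha
  | succ k ih =>
    intro hL
    exact step σ hσ hσv hv hp3 hpk hp1 hz0 (hL (a + k) (by omega) (by omega))
      (ih fun j h1 h2 => hL j h1 (by omega))

/-- the base point -/
theorem dj_zero {v : AbsoluteValue K ℝ} {p : ℕ} {c : α → ℕ} {f : MvPolynomial α K} {z0 : α → K}
    (hz1 : ∀ i, v (z0 i) < 1) {w0 : K} (hw0 : w0 ≠ 0) (hw : v w0 < v (p : K))
    (hzw : w0 ^ 2 = MvPolynomial.eval z0 f) : Dj v p c f z0 0 := by
  intro g hg z hz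
  refine hg z ⟨hz, fun i => ?_, w0, hw0, hw, ?_⟩
  · rw [hz i (Nat.zero_le _)]
    exact hz1 i
  · rw [hzw]
    congr 2
    funext i
    exact (hz i (Nat.zero_le _)).symm

/-- two double covers which are birational at the lower levels -/
theorem dj_transfer {v : AbsoluteValue K ℝ} {p : ℕ} (hp0 : p ≠ 0) (hp1 : v (p : K) < 1)
    {c : α → ℕ} {f q : MvPolynomial α K} {z0 : α → K} {a : ℕ} {s : α} (hs : c s < a)
    (hz0 : ∀ i, a ≤ c i → z0 i = 0)
    (hfq : ∀ z : α → K, (∀ i, a ≤ c i → z i = 0) → eval z f = z s ^ 2 * eval z q)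
    (hq : Dj v p c q z0 a) : Dj v p c f z0 a := by
  classical
  intro g hg z hz
  have key : ∀ z : α → K, (∀ i, a ≤ c i → z i = z0 i) → z s * eval z g = 0 := by
    intro z hz
    have h1 := hq (X s * g) (fun x hx => ?_) z hz
    · rwa [map_mul, eval_X] at h1
    · obtain ⟨hx1, hx2, w, hw0, hw, hxw⟩ := hx
      rw [map_mul, eval_X]
      by_cases hxs : x s = 0
      · rw [hxs, zero_mul]
      · rw [hg x ⟨hx1, hx2, x s * w, mul_ne_zero hxs hw0, ?_, ?_⟩, mul_zero]
        · rw [map_mul]
          calc v (x s) * v w ≤ 1 * v w := mul_le_mul_of_nonneg_right (hx2 s).le (v.nonneg _)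
            _ < v (p : K) := by rw [one_mul]; exact hw
        · rw [mul_pow, hxw, hfq x fun i hi => (hx1 i hi).trans (hz0 i hi)]
  have h2 : rst g (z - z s • Pi.single s 1) (Pi.single s 1) = 0 := by
    refine zero_of_small (v := v) fun ε hε => ?_
    obtain ⟨t, ht0, ht⟩ := exists_small (v := v) (p := p) hp0 hp1 hε
    refine ⟨t, ht0, ht, ?_⟩
    rw [rst_eval]
    have h3 := key (z - z s • Pi.single s 1 + t • Pi.single s 1) (fun i hi => by
      have his : i ≠ s := by
        rintro rfl
        omega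
      simp only [Pi.add_apply, Pi.sub_apply, Pi.smul_apply, Pi.single_apply, if_neg his, smul_zero,
        sub_zero, add_zero]
      exact hz i hi)
    have h4 : (z - z s • (Pi.single s 1 : α → K) + t • (Pi.single s 1 : α → K)) s = t := by
      simp
    rw [h4] at h3
    exact (mul_eq_zero.1 h3).resolve_left ht0
  have h3 := congrArg (Polynomial.eval (z s)) h2
  rwa [rst_eval, Polynomial.eval_zero, sub_add_cancel] at h3

end dens

section

variable {K : Type*} [Field K] [CharZero K] {β γ : Type*} [Fintype β] [Fintype γ] [DecidableEq β]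
  [DecidableEq γ]

/-- a double point in a fibre -/
structure Node (c : β → ℕ) (f : MvPolynomial (β ⊕ Option γ) K) : Prop where
  two : ∀ d ∈ sup f, 2 ≤ U d
  six : ∀ d ∈ sup f, U d ≤ 6
  sq : coeff (Finsupp.single (Sum.inr none) 2) f = 0
  cube : coeff (Finsupp.single (Sum.inr none) 3) f ≠ 0
  lev : ∀ j, ∃ h q : MvPolynomial (β ⊕ Option γ) K, rest c j f = h ^ 2 * q ∧
    ((∀ d ∈ q.support, ∑ i with c i = j, d (Sum.inl i) ≤ 2) ∨
      ((∀ d ∈ q.support, ∑ i with c i = j, d (Sum.inl i) ≤ 4) ∧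
        ∃ i, c i = j ∧ coeff (Finsupp.single (Sum.inl i) 1) f ≠ 0))

lemma Node.zero {c : β → ℕ} {f : MvPolynomial (β ⊕ Option γ) K} (hf : Node c f) :
    coeff 0 f = 0 := by
  by_contra h
  have := hf.two 0 (mem_sup.2 ⟨h, fun i => rfl⟩)
  simp [U] at this

lemma node_units {c : β → ℕ} {f h q : MvPolynomial (β ⊕ Option γ) K} {j : ℕ}
    (h0 : coeff 0 f = 0) (hf : rest c j f = h ^ 2 * q) {i : β} (hi : c i = j)
    (hfi : coeff (Finsupp.single (Sum.inl i) 1) f ≠ 0) :
    coeff 0 h ≠ 0 ∧ coeff (Finsupp.single (Sum.inl i) 1) q ≠ 0 := by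
  have h1 : rst f 0 (Pi.single (Sum.inl i) 1) =
      rst h 0 (Pi.single (Sum.inl i) 1) ^ 2 * rst q 0 (Pi.single (Sum.inl i) 1) := by
    rw [← rst_sq, ← rst_mul, ← hf]
    apply Polynomial.funext
    intro t
    rw [rst_eval, rst_eval, rest_eval]
    intro l hl
    simp only [zero_add, Pi.smul_apply, Pi.single_apply, smul_eq_mul]
    rw [if_neg, mul_zero]
    intro h
    have := Sum.inl_injective h
    subst this
    omega
  have h2 := congrArg (fun P => Polynomial.coeff P 0) h1
  have h3 := congrArg (fun P => Polynomial.coeff P 1) h1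
  simp only [Polynomial.mul_coeff_zero, Polynomial.mul_coeff_one, sq, coeff_zero', FLG.coeff_single,
    h0] at h2 h3
  have ha : coeff 0 h ≠ 0 := by
    intro ha
    apply hfi
    rw [h3, ha]
    ring
  have hb : coeff 0 q = 0 := by
    rcases mul_eq_zero.1 h2.symm with h4 | h4
    · exact absurd (mul_self_eq_zero.1 h4) ha
    · exact h4
  refine ⟨ha, fun hq => hfi ?_⟩
  rw [h3, hb, hq]
  ring

lemma sum_lev_zero (c : β → ℕ) (d : β ⊕ Option γ →₀ ℕ) :
    ∑ i with lev c i = 0, d i = ∑ g : γ, d (Sum.inr (some g)) := by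
  classical
  rw [Finset.sum_filter, Fintype.sum_sum_type, Fintype.sum_option]
  simp [lev]

lemma sum_lev_one (c : β → ℕ) (d : β ⊕ Option γ →₀ ℕ) :
    ∑ i with lev c i = 1, d i = d (Sum.inr none) := by
  classical
  rw [Finset.sum_filter, Fintype.sum_sum_type, Fintype.sum_option]
  simp [lev]

lemma sum_lev_two (c : β → ℕ) (d : β ⊕ Option γ →₀ ℕ) (j : ℕ) :
    ∑ i with lev c i = j + 2, d i = ∑ i with c i = j, d (Sum.inl i) := by
  classical
  rw [Finset.sum_filter, Fintype.sum_sum_type, Fintype.sum_option]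
  simp [lev, Finset.sum_filter]

end

end Pool.Agent.K9h33.NOD
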