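import Mathlib

/-!
Degrees in blocks of variables, and the substitutions which move a double point.
-/

set_option autoImplicit false
set_option linter.unusedSectionVars false
set_option linter.unusedVariables false
set_option linter.unusedSimpArgs false

open MvPolynomial

namespace Pool.Agent.K9h33.NOD

section deg

variable {R : Type*} [CommRing R] {α : Type*} [Fintype α]

/-- the weighted degree is at most `n` -/
def Le (w : α → ℕ) (n : ℕ) (f : MvPolynomial α R) : Prop := ∀ d ∈ f.support, ∑ v, w v * d v ≤ n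

variable {w : α → ℕ} {n m : ℕ} {f g : MvPolynomial α R}

lemma Le.mono (h : Le w n f) (hnm : n ≤ m) : Le w m f := fun d hd => (h d hd).trans hnm

lemma Le.zero : Le w n (0 : MvPolynomial α R) := fun d hd => by simp at hd

lemma Le.add (hf : Le w n f) (hg : Le w n g) : Le w n (f + g) := by
  classical
  intro d hd
  rcases Finset.mem_union.1 (support_add hd) with h | h
  · exact hf d h
  · exact hg d h

lemma Le.neg (hf : Le w n f) : Le w n (-f) := by
  intro d hd
  rw [support_neg] at hd
  exact hf d hd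

lemma Le.sub (hf : Le w n f) (hg : Le w n g) : Le w n (f - g) := by
  rw [sub_eq_add_neg]
  exact hf.add hg.neg

lemma Le.mul (hf : Le w n f) (hg : Le w m g) : Le w (n + m) (f * g) := by
  classical
  intro d hd
  obtain ⟨a, ha, b, hb, rfl⟩ := Finset.mem_add.1 (support_mul f g hd)
  calc ∑ v, w v * (a + b) v = ∑ v, w v * a v + ∑ v, w v * b v := by
        rw [← Finset.sum_add_distrib]
        exact Finset.sum_congr rfl fun v _ => by rw [Finsupp.add_apply, mul_add]
    _ ≤ n + m := add_le_add (hf a ha) (hg b hb)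

lemma Le.C (a : R) : Le w n (C a : MvPolynomial α R) := by
  classical
  intro d hd
  rw [mem_support_iff, coeff_C] at hd
  have : d = 0 := by
    by_contra h
    exact hd (if_neg (Ne.symm h))
  subst this
  simp

lemma Le.one : Le w n (1 : MvPolynomial α R) := by
  rw [← map_one MvPolynomial.C]
  exact Le.C 1

lemma Le.pow (hf : Le w n f) (k : ℕ) : Le w (k * n) (f ^ k) := by
  induction k with
  | zero => rw [pow_zero]; exact Le.one
  | succ k ih => rw [pow_succ, add_mul, one_mul]; exact ih.mul hf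

lemma Le.X (v : α) : Le w (w v) (X v : MvPolynomial α R) := by
  classical
  intro d hd
  rw [mem_support_iff, coeff_X] at hd
  have : d = Finsupp.single v 1 := by
    by_contra h
    exact hd (if_neg (Ne.symm h))
  subst this
  rw [Finset.sum_eq_single v]
  · simp
  · intro b _ hb
    rw [Finsupp.single_apply, if_neg (Ne.symm hb), mul_zero]
  · simp

lemma Le.sum {ι : Type*} (s : Finset ι) (F : ι → MvPolynomial α R) (h : ∀ i ∈ s, Le w n (F i)) :
    Le w n (∑ i ∈ s, F i) := by
  classical
  induction s using Finset.induction_on with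
  | empty => simpa using Le.zero
  | insert i s hi ih =>
    rw [Finset.sum_insert hi]
    exact (h i (Finset.mem_insert_self i s)).add (ih fun j hj => h j (Finset.mem_insert_of_mem hj))

lemma Le.prod {ι : Type*} (s : Finset ι) (F : ι → MvPolynomial α R) (k : ι → ℕ)
    (h : ∀ i ∈ s, Le w (k i) (F i)) : Le w (∑ i ∈ s, k i) (∏ i ∈ s, F i) := by
  classical
  induction s using Finset.induction_on with
  | empty => simpa using Le.one
  | insert i s hi ih =>
    rw [Finset.sum_insert hi, Finset.prod_insert hi]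
    exact (h i (Finset.mem_insert_self i s)).mul (ih fun j hj => h j (Finset.mem_insert_of_mem hj))

lemma Le.aeval {F : α → MvPolynomial α R} (hF : ∀ v, Le w (w v) (F v)) (hf : Le w n f) :
    Le w n (aeval F f) := by
  rw [f.as_sum, map_sum]
  refine Le.sum _ _ fun d hd => ?_
  rw [aeval_monomial, Finsupp.prod_fintype _ _ fun v => pow_zero _]
  have h1 : Le w (0 + ∑ v, d v * w v) (algebraMap R (MvPolynomial α R) (coeff d f) *
      ∏ v, F v ^ d v) :=
    (Le.C _).mul (Le.prod _ _ _ fun v _ => (hF v).pow (d v))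
  refine h1.mono ?_
  rw [zero_add]
  refine le_trans (le_of_eq ?_) (hf d hd)
  exact Finset.sum_congr rfl fun v _ => mul_comm _ _

end deg

section shift

variable {β γ : Type*} [Fintype β] [Fintype γ] [DecidableEq β] [DecidableEq γ]

/-- the translation and the linear substitution -/
noncomputable def shf {R : Type*} [CommRing R] (i1 : β) (g1 : γ) (η : R) (b : Option γ → R)
    (τ : R) : β ⊕ Option γ → MvPolynomial (β ⊕ Option γ) R
  | Sum.inl i => X (Sum.inl i) + C (if i = i1 then η else 0)
  | Sum.inr o => X (Sum.inr o) + C (b o) + C (if o = some g1 then τ else 0) * X (Sum.inr none)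

/-- the inverse substitution -/
noncomputable def shi {R : Type*} [CommRing R] (i1 : β) (g1 : γ) (η : R) (b : Option γ → R)
    (τ : R) : β ⊕ Option γ → MvPolynomial (β ⊕ Option γ) R
  | Sum.inl i => X (Sum.inl i) - C (if i = i1 then η else 0)
  | Sum.inr o => X (Sum.inr o) - C (b o) - C (if o = some g1 then τ else 0) *
      (X (Sum.inr none) - C (b none))

variable {R : Type*} [CommRing R] (i1 : β) (g1 : γ) (η : R) (b : Option γ → R) (τ : R)

lemma shf_shi (v : β ⊕ Option γ) : aeval (shf i1 g1 η b τ) (shi i1 g1 η b τ v) = X v := by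
  rcases v with i | o
  · simp [shi, shf, algebraMap_eq]
  · simp [shi, shf, algebraMap_eq]
    ring

lemma shi_shf (v : β ⊕ Option γ) : aeval (shi i1 g1 η b τ) (shf i1 g1 η b τ v) = X v := by
  rcases v with i | o
  · simp [shi, shf, algebraMap_eq]
  · simp [shi, shf, algebraMap_eq]
    ring

lemma shf_shi' (p : MvPolynomial (β ⊕ Option γ) R) :
    aeval (shf i1 g1 η b τ) (aeval (shi i1 g1 η b τ) p) = p := by
  have h1 : (aeval (shf i1 g1 η b τ)).comp (aeval (shi i1 g1 η b τ)) = AlgHom.id R _ := by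
    apply algHom_ext
    intro v
    simp only [AlgHom.comp_apply, aeval_X, AlgHom.id_apply]
    exact shf_shi i1 g1 η b τ v
  exact DFunLike.congr_fun h1 p

lemma shi_shf' (p : MvPolynomial (β ⊕ Option γ) R) :
    aeval (shi i1 g1 η b τ) (aeval (shf i1 g1 η b τ) p) = p := by
  have h1 : (aeval (shi i1 g1 η b τ)).comp (aeval (shf i1 g1 η b τ)) = AlgHom.id R _ := by
    apply algHom_ext
    intro v
    simp only [AlgHom.comp_apply, aeval_X, AlgHom.id_apply]
    exact shi_shf i1 g1 η b τ v
  exact DFunLike.congr_fun h1 p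

lemma map_shf {S : Type*} [CommRing S] (φ : R →+* S) (v : β ⊕ Option γ) :
    map φ (shf i1 g1 η b τ v) = shf i1 g1 (φ η) (fun o => φ (b o)) (φ τ) v := by
  rcases v with i | o
  · simp only [shf, map_add, map_X, map_C]
    split_ifs <;> simp
  · simp only [shf, map_add, map_X, map_C, map_mul]
    split_ifs <;> simp

lemma map_aeval_shf {S : Type*} [CommRing S] (φ : R →+* S) (p : MvPolynomial (β ⊕ Option γ) R) :
    map φ (aeval (shf i1 g1 η b τ) p) =
      aeval (shf i1 g1 (φ η) (fun o => φ (b o)) (φ τ)) (map φ p) := by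
  induction p using MvPolynomial.induction_on with
  | C a => simp [algebraMap_eq]
  | add p q hp hq => rw [map_add, map_add, hp, hq, map_add, map_add]
  | mul_X p v hp => rw [map_mul, map_mul, hp, aeval_X, map_shf, map_mul, map_X, map_mul, aeval_X]

/-- weights which are constant on the second group -/
lemma shf_le {w : β ⊕ Option γ → ℕ} {k : ℕ} (hw : ∀ o, w (Sum.inr o) = k) (v : β ⊕ Option γ) :
    Le w (w v) (shf i1 g1 η b τ v) := by
  rcases v with i | o
  · exact (Le.X _).add (Le.C _)
  · refine ((Le.X _).add (Le.C _)).add ?_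
    have h1 := (Le.C (w := w) (n := 0) (if o = some g1 then τ else 0)).mul
      (Le.X (R := R) (w := w) (Sum.inr none))
    refine h1.mono ?_
    rw [hw, hw, zero_add]

lemma shi_le {w : β ⊕ Option γ → ℕ} {k : ℕ} (hw : ∀ o, w (Sum.inr o) = k) (v : β ⊕ Option γ) :
    Le w (w v) (shi i1 g1 η b τ v) := by
  rcases v with i | o
  · exact (Le.X _).sub (Le.C _)
  · refine ((Le.X _).sub (Le.C _)).sub ?_
    have h1 := (Le.C (w := w) (n := 0) (if o = some g1 then τ else 0)).mul
      ((Le.X (R := R) (w := w) (Sum.inr none)).sub (Le.C (b none)))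
    refine h1.mono ?_
    rw [hw, hw, zero_add]

/-- the exponents of the monomials of degree at most `e j` in the `y`-variables of the block `j`, and
at most six in the `u`-variables -/
def InE (c : β → ℕ) (e : ℕ → ℕ) (d : β ⊕ Option γ →₀ ℕ) : Prop :=
  (∀ j, ∑ i with c i = j, d (Sum.inl i) ≤ e j) ∧ ∑ o, d (Sum.inr o) ≤ 6

/-- the weights of the blocks -/
def wt (c : β → ℕ) (j : ℕ) : β ⊕ Option γ → ℕ := Sum.elim (fun i => if c i = j then 1 else 0) 0

/-- the weights of the `u`-variables -/
def wu : β ⊕ Option γ → ℕ := Sum.elim 0 1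

lemma sum_wt (c : β → ℕ) (j : ℕ) (d : β ⊕ Option γ →₀ ℕ) :
    ∑ v, wt c j v * d v = ∑ i with c i = j, d (Sum.inl i) := by
  rw [Fintype.sum_sum_type, Finset.sum_filter]
  simp [wt]

lemma sum_wu (d : β ⊕ Option γ →₀ ℕ) : ∑ v, wu v * d v = ∑ o, d (Sum.inr o) := by
  rw [Fintype.sum_sum_type]
  simp [wu]

/-- the polynomials of bounded multidegree -/
def Supp (c : β → ℕ) (e : ℕ → ℕ) (f : MvPolynomial (β ⊕ Option γ) R) : Prop :=
  ∀ d ∈ f.support, InE c e d

lemma supp_iff {c : β → ℕ} {e : ℕ → ℕ} {f : MvPolynomial (β ⊕ Option γ) R} :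
    Supp c e f ↔ (∀ j, Le (wt c j) (e j) f) ∧ Le wu 6 f := by
  constructor
  · intro h
    refine ⟨fun j d hd => ?_, fun d hd => ?_⟩
    · rw [sum_wt]
      exact (h d hd).1 j
    · rw [sum_wu]
      exact (h d hd).2
  · rintro ⟨h1, h2⟩ d hd
    refine ⟨fun j => ?_, ?_⟩
    · rw [← sum_wt]
      exact h1 j d hd
    · rw [← sum_wu]
      exact h2 d hd

lemma supp_shf {c : β → ℕ} {e : ℕ → ℕ} {f : MvPolynomial (β ⊕ Option γ) R} (hf : Supp c e f) :
    Supp c e (aeval (shf i1 g1 η b τ) f) := by
  rw [supp_iff] at hf ⊢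
  exact ⟨fun j => Le.aeval (shf_le i1 g1 η b τ (k := 0) fun o => rfl) (hf.1 j),
    Le.aeval (shf_le i1 g1 η b τ (k := 1) fun o => rfl) hf.2⟩

lemma supp_shi {c : β → ℕ} {e : ℕ → ℕ} {f : MvPolynomial (β ⊕ Option γ) R} (hf : Supp c e f) :
    Supp c e (aeval (shi i1 g1 η b τ) f) := by
  rw [supp_iff] at hf ⊢
  exact ⟨fun j => Le.aeval (shi_le i1 g1 η b τ (k := 0) fun o => rfl) (hf.1 j),
    Le.aeval (shi_le i1 g1 η b τ (k := 1) fun o => rfl) hf.2⟩

lemma finite_InE (c : β → ℕ) (e : ℕ → ℕ) : {d : β ⊕ Option γ →₀ ℕ | InE c e d}.Finite := by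
  classical
  let B : β ⊕ Option γ →₀ ℕ := Finsupp.equivFunOnFinite.symm fun v => (∑ i, e (c i)) + 6
  refine (Set.finite_Icc 0 B).subset fun d hd => ⟨zero_le, fun v => ?_⟩
  change d v ≤ (∑ i, e (c i)) + 6
  rcases v with i | o
  · have h1 := hd.1 (c i)
    have h2 : d (Sum.inl i) ≤ ∑ i' with c i' = c i, d (Sum.inl i') :=
      Finset.single_le_sum (f := fun i' => d (Sum.inl i')) (fun _ _ => Nat.zero_le _)
        (by simp)
    have h3 : e (c i) ≤ ∑ i, e (c i) :=
      Finset.single_le_sum (f := fun i => e (c i)) (fun _ _ => Nat.zero_le _) (Finset.mem_univ i)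
    omega
  · have h2 : d (Sum.inr o) ≤ ∑ o', d (Sum.inr o') :=
      Finset.single_le_sum (f := fun o' => d (Sum.inr o')) (fun _ _ => Nat.zero_le _)
        (Finset.mem_univ o)
    have := hd.2
    omega

end shift

end Pool.Agent.K9h33.NOD
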